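import Mathlib

/-!
# Matroid rank functions and the matroid partition theorem

An elementary, self-contained form of the matroid partition theorem of Edmonds for rank functions
on the finite subsets of a type.
-/

namespace Pool.Agent.Lib.MP_eace5d_co

open Finset

variable {ι κ : Type*} [DecidableEq ι]

/-- A matroid rank function on the finite subsets of `ι`. -/
structure IsRank (r : Finset ι → ℕ) : Prop where
  empty : r ∅ = 0
  mono_insert : ∀ A x, r A ≤ r (insert x A)
  insert_le : ∀ A x, r (insert x A) ≤ r A + 1
  cl : ∀ A B x, A ⊆ B → r (insert x A) = r A → r (insert x B) = r B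

namespace IsRank

variable {r : Finset ι → ℕ}

lemma mono (h : IsRank r) {A B : Finset ι} (hAB : A ⊆ B) : r A ≤ r B := by
  induction B using Finset.induction_on generalizing A with
  | empty =>
    rw [Finset.subset_empty.mp hAB]
  | insert x B hx ih =>
    by_cases hxA : x ∈ A
    · -- compare through adding elements
      have key : ∀ C : Finset ι, r A ≤ r (A ∪ C) := by
        intro C
        induction C using Finset.induction_on with
        | empty => simp
        | insert y C _ ihC =>
          rw [Finset.union_insert]
          exact ihC.trans (h.mono_insert _ _)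
      have := key (insert x B)
      rwa [Finset.union_eq_right.mpr hAB] at this
    · have hAB' : A ⊆ B := by
        intro a ha
        rcases Finset.mem_insert.mp (hAB ha) with rfl | h'
        · exact absurd ha hxA
        · exact h'
      exact (ih hAB').trans (h.mono_insert _ _)

lemma le_card (h : IsRank r) (A : Finset ι) : r A ≤ A.card := by
  induction A using Finset.induction_on with
  | empty => rw [h.empty]; simp
  | insert x A hx ih =>
    rw [Finset.card_insert_of_notMem hx]
    exact (h.insert_le A x).trans (by omega)

lemma submod (h : IsRank r) (A B : Finset ι) : r (A ∪ B) + r (A ∩ B) ≤ r A + r B := by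
  -- add the elements of `A` one by one
  have key : ∀ C : Finset ι, C ⊆ A → r (C ∪ B) + r (A ∩ B) ≤ r (C ∪ (A ∩ B)) + r B := by
    intro C
    induction C using Finset.induction_on with
    | empty => intro _; simp; omega
    | insert x C hx ih =>
      intro hC
      have hCA : C ⊆ A := (Finset.subset_insert _ _).trans hC
      have h1 := ih hCA
      rw [Finset.insert_union, Finset.insert_union]
      have hsub : C ∪ (A ∩ B) ⊆ C ∪ B := Finset.union_subset_union_right Finset.inter_subset_right
      by_cases he : r (insert x (C ∪ (A ∩ B))) = r (C ∪ (A ∩ B))
      · rw [h.cl _ _ x hsub he, he]; exact h1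
      · have h2 := h.mono_insert (C ∪ (A ∩ B)) x
        have h3 := h.insert_le (C ∪ B) x
        omega
  have h1 := key A (Finset.Subset.refl _)
  rwa [Finset.union_eq_left.mpr (Finset.inter_subset_left : A ∩ B ⊆ A)] at h1

lemma contract (h : IsRank r) {f : ι} (hf : r {f} = 1) :
    IsRank (fun A => r (insert f A) - 1) := by
  have hpos : ∀ A : Finset ι, 1 ≤ r (insert f A) := by
    intro A
    rw [← hf]
    exact h.mono (by simp)
  refine ⟨?_, ?_, ?_, ?_⟩
  · simp [hf]
  · intro A x
    have := h.mono_insert (insert f A) x
    rw [Finset.insert_comm] at this
    omega
  · intro A x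
    have h1 := h.insert_le (insert f A) x
    rw [Finset.insert_comm] at h1
    have h2 := hpos A
    omega
  · intro A B x hAB he
    have h1 := hpos A
    have h2 := hpos (insert x A)
    have h3 : r (insert x (insert f A)) = r (insert f A) := by
      rw [Finset.insert_comm]; omega
    have h4 := h.cl _ _ x (Finset.insert_subset_insert f hAB) h3
    rw [Finset.insert_comm] at h4
    show r (insert f (insert x B)) - 1 = r (insert f B) - 1
    rw [h4]

/-- pull back of a rank function along a map -/
lemma comap {ι' : Type*} [DecidableEq ι'] (h : IsRank r) (φ : ι' → ι) :
    IsRank (fun A : Finset ι' => r (A.image φ)) := by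
  refine ⟨?_, ?_, ?_, ?_⟩
  · simp [h.empty]
  · intro A x
    simp only [Finset.image_insert]
    exact h.mono_insert _ _
  · intro A x
    simp only [Finset.image_insert]
    exact h.insert_le _ _
  · intro A B x hAB he
    simp only [Finset.image_insert] at he ⊢
    exact h.cl _ _ _ (Finset.image_subset_image hAB) he

end IsRank

/-- Tight sets are closed under unions. -/
lemma tight_union [Fintype κ] {r : κ → Finset ι → ℕ} (hr : ∀ k, IsRank (r k))
    {E A B : Finset ι} (h : ∀ C ⊆ E, C.card ≤ ∑ k, r k C) (hA : A ⊆ E) (hB : B ⊆ E)
    (htA : A.card = ∑ k, r k A) (htB : B.card = ∑ k, r k B) :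
    (A ∪ B).card = ∑ k, r k (A ∪ B) := by
  have h1 : ∑ k, r k (A ∪ B) + ∑ k, r k (A ∩ B) ≤ ∑ k, r k A + ∑ k, r k B := by
    rw [← Finset.sum_add_distrib, ← Finset.sum_add_distrib]
    exact Finset.sum_le_sum (fun k _ => (hr k).submod A B)
  have h2 := h (A ∪ B) (Finset.union_subset hA hB)
  have h3 := h (A ∩ B) (Finset.inter_subset_left.trans hA)
  have h4 := Finset.card_union_add_card_inter A B
  omega

/-- **Matroid partition theorem.** -/
theorem partition [Fintype κ] [DecidableEq κ] :
    ∀ (n : ℕ) (E : Finset ι), E.card = n → ∀ (r : κ → Finset ι → ℕ), (∀ k, IsRank (r k)) →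
    (∀ A ⊆ E, A.card ≤ ∑ k, r k A) →
    (E.Nonempty → Nonempty κ) →
    ∃ c : ι → Option κ, (∀ x ∈ E, (c x).isSome) ∧ ∀ k,
      r k (E.filter (fun x => c x = some k)) = (E.filter (fun x => c x = some k)).card := by
  intro n
  induction n with
  | zero =>
    intro E hE r hr _ _
    have : E = ∅ := Finset.card_eq_zero.mp hE
    subst this
    exact ⟨fun _ => none, by simp, fun k => by simp [(hr k).empty]⟩
  | succ n ih =>
    intro E hE r hr h hne
    obtain ⟨f, hf⟩ : E.Nonempty := Finset.card_pos.mp (by omega)
    set E' := E.erase f with hE'
    have hE'c : E'.card = n := by rw [hE', Finset.card_erase_of_mem hf]; omega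
    have hfE' : f ∉ E' := by simp [hE']
    have hins : insert f E' = E := Finset.insert_erase hf
    by_cases hcase : ∃ k, r k {f} = 1 ∧
        ∀ A ⊆ E', A.card + 1 ≤ r k (insert f A) + ∑ j ∈ Finset.univ.erase k, r j A
    · obtain ⟨k, hk1, hk2⟩ := hcase
      set r' : κ → Finset ι → ℕ := Function.update r k (fun A => r k (insert f A) - 1) with hr'
      have hr'k : r' k = fun A => r k (insert f A) - 1 := by simp [hr']
      have hr'j : ∀ j, j ≠ k → r' j = r j := fun j hj => by simp [hr', hj]
      have hpos : ∀ A : Finset ι, 1 ≤ r k (insert f A) := by
        intro A
        rw [← hk1]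
        exact (hr k).mono (by simp)
      have hg1 : ∀ j, IsRank (r' j) := by
        intro j
        by_cases hj : j = k
        · subst hj; rw [hr'k]; exact (hr j).contract hk1
        · rw [hr'j j hj]; exact hr j
      have hg2 : ∀ A ⊆ E', A.card ≤ ∑ j, r' j A := by
        intro A hA
        have h1 := hk2 A hA
        have h2 : ∑ j, r' j A = (r k (insert f A) - 1) + ∑ j ∈ Finset.univ.erase k, r j A := by
          rw [← Finset.add_sum_erase _ _ (Finset.mem_univ k), hr'k]
          congr 1
          refine Finset.sum_congr rfl (fun j hj => ?_)
          rw [hr'j j (Finset.ne_of_mem_erase hj)]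
        rw [h2]
        have h3 := hpos A
        omega
      obtain ⟨c, hc1, hc2⟩ := ih E' hE'c r' hg1 hg2 (fun _ => ⟨k⟩)
      · refine ⟨Function.update c f (some k), ?_, ?_⟩
        · intro x hx
          by_cases hxf : x = f
          · subst hxf; simp
          · rw [Function.update_of_ne hxf]
            exact hc1 x (Finset.mem_erase.mpr ⟨hxf, hx⟩)
        · intro j
          by_cases hj : j = k
          · subst hj
            have h1 : E.filter (fun x => Function.update c f (some j) x = some j) =
                insert f (E'.filter (fun x => c x = some j)) := by
              ext x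
              simp only [Finset.mem_filter, Finset.mem_insert, hE', Finset.mem_erase]
              by_cases hxf : x = f
              · subst hxf; simp [hf]
              · simp [Function.update_of_ne hxf, hxf]
            rw [h1, Finset.card_insert_of_notMem (by simp [hfE'])]
            have h2 := hc2 j
            rw [hr'k] at h2
            have h3 := hpos (E'.filter (fun x => c x = some j))
            simp only at h2
            omega
          · have h1 : E.filter (fun x => Function.update c f (some k) x = some j) =
                E'.filter (fun x => c x = some j) := by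
              ext x
              simp only [Finset.mem_filter, hE', Finset.mem_erase]
              by_cases hxf : x = f
              · subst hxf
                simp only [Function.update_self, Option.some.injEq, ne_eq, not_true_eq_false,
                  false_and, and_false, iff_false, not_and]
                intro _ hkj
                exact hj hkj.symm
              · simp [Function.update_of_ne hxf, hxf]
            rw [h1]
            have h2 := hc2 j
            rwa [hr'j j hj] at h2
    · -- contradiction
      exfalso
      push Not at hcase
      have hA : ∀ k, ∃ A ⊆ E', A.card = ∑ j, r j A ∧ r k (insert f A) = r k A := by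
        intro k
        by_cases hk : r k {f} = 1
        · obtain ⟨A, hA, hlt⟩ := hcase k hk
          refine ⟨A, hA, ?_⟩
          have h1 := h A (hA.trans (Finset.erase_subset _ _))
          have h2 := Finset.add_sum_erase Finset.univ (fun j => r j A) (Finset.mem_univ k)
          have h3 := (hr k).mono_insert A f
          constructor <;> omega
        · refine ⟨∅, by simp, ?_, ?_⟩
          · simp [(fun j => (hr j).empty : ∀ j, r j ∅ = 0)]
          · have h1 := (hr k).insert_le ∅ f
            have h2 := (hr k).empty
            simp only [insert_empty_eq] at h1 ⊢
            omega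
      choose A hA1 hA2 hA3 using hA
      -- the union of all the tight sets
      have hun : ∀ T : Finset κ, (T.biUnion A) ⊆ E' ∧
          (T.biUnion A).card = ∑ j, r j (T.biUnion A) := by
        intro T
        induction T using Finset.induction_on with
        | empty => simp [(fun j => (hr j).empty : ∀ j, r j ∅ = 0)]
        | insert k T _ ihT =>
          rw [Finset.biUnion_insert]
          refine ⟨Finset.union_subset (hA1 k) ihT.1, ?_⟩
          exact tight_union hr h ((hA1 k).trans (Finset.erase_subset _ _))
            (ihT.1.trans (Finset.erase_subset _ _)) (hA2 k) ihT.2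
      obtain ⟨h1, h2⟩ := hun Finset.univ
      set U := Finset.univ.biUnion A with hU
      have h3 : ∀ k, r k (insert f U) = r k U := by
        intro k
        exact (hr k).cl (A k) U f (Finset.subset_biUnion_of_mem A (Finset.mem_univ k)) (hA3 k)
      have h4 := h (insert f U) (by
        rw [← hins]
        exact Finset.insert_subset_insert f h1)
      rw [Finset.card_insert_of_notMem (fun hh => hfE' (h1 hh)), Finset.sum_congr rfl
        (fun k _ => h3 k)] at h4
      omega

end Pool.Agent.Lib.MP_eace5d_co
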