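import Pool.Agent.Lib.MP_eace5d_co.Ineq

/-!
# The decomposition of a (3,6)-tight graph
-/

namespace Pool.Agent.Lib.MP_eace5d_co

open Finset

variable {ι V W : Type*} [DecidableEq ι] [Fintype V] [DecidableEq V] [DecidableEq W]
  {π : V → W} {x y : V} {en : ι → Finset V}

/-- the edges with the extra edge `xy` -/
def withEdge (x y : V) (en : ι → Finset V) : Option ι → Finset V := fun o => o.elim {x, y} en

omit [Fintype V] in
lemma isRank_contract (hxy : x ≠ y) (hen : ∀ a, (en a).card = 2) :
    IsRank (fun A : Finset ι => rk (withEdge x y en) (insertNone A) - 1) ∧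
    ∀ A : Finset ι, 1 ≤ rk (withEdge x y en) (insertNone A) := by
  have hc : ∀ o, (withEdge x y en o).card = 2 := by
    intro o
    cases o with
    | none => exact Finset.card_pair hxy
    | some a => exact hen a
  have h1 := isRank_rk hc
  have h2 : rk (withEdge x y en) {none} = 1 := by
    apply le_antisymm
    · have := h1.le_card {none}
      simpa using this
    · by_contra hlt
      obtain ⟨F, hF, hFc⟩ := exists_opt hc {none}
      obtain ⟨C, hC, _⟩ := hF.2 none (by simp)
      have h3 := cost_erase hC
      have h4 := fc_add (hF.1 C hC)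
      have h5 := hF.1 C hC
      omega
  have h3 : ∀ A : Finset ι, insertNone A = insert none (A.image some) := by
    intro A
    ext o
    cases o with
    | none => simp
    | some a => simp
  constructor
  · have := (h1.contract h2).comap (some : ι → Option ι)
    convert this using 3
    rw [h3]
  · intro A
    rw [← h2]
    exact h1.mono (by simp)

theorem exists_three [Fintype ι] (h : Ident π x y) (hen : ∀ a, (en a).card = 2)
    (hinj : Function.Injective en) (hne : ∀ a, en a ≠ {x, y})
    (hs : ∀ U : Finset V, 3 ≤ U.card →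
      (inside en Finset.univ U).card + (if x ∈ U ∧ y ∈ U then 1 else 0) + 6 ≤ 3 * U.card) :
    ∃ d : ι → Fin 3,
      rk (withEdge x y en) (insertNone (Finset.univ.filter (fun a => d a ≠ 0))) =
        (Finset.univ.filter (fun a => d a ≠ 0)).card + 1 ∧
      rk (fun a => (en a).image π) (Finset.univ.filter (fun a => d a ≠ 1)) =
        (Finset.univ.filter (fun a => d a ≠ 1)).card ∧
      rk (fun a => (en a).image π) (Finset.univ.filter (fun a => d a ≠ 2)) =
        (Finset.univ.filter (fun a => d a ≠ 2)).card := by
  classical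
  obtain ⟨hr1, hr1'⟩ := isRank_contract (en := en) h.ne hen
  have hen'c : ∀ a, ((en a).image π).card = 2 := by
    intro a
    rw [← hen a]
    apply h.card_image
    rintro ⟨hx, hy⟩
    apply hne a
    symm
    apply Finset.eq_of_subset_of_card_le
    · intro v hv
      rcases Finset.mem_insert.mp hv with rfl | hv
      · exact hx
      · rw [Finset.mem_singleton.mp hv]; exact hy
    · rw [hen a, Finset.card_pair h.ne]
  have hr2 : IsRank (rk (fun a => (en a).image π)) := isRank_rk hen'c
  obtain ⟨r₁, hr₁⟩ : ∃ r₁ : Finset ι → ℕ,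
    r₁ = fun A => rk (withEdge x y en) (insertNone A) - 1 := ⟨_, rfl⟩
  obtain ⟨r₂, hr₂⟩ : ∃ r₂ : Finset ι → ℕ, r₂ = rk (fun a => (en a).image π) := ⟨_, rfl⟩
  rw [← hr₁] at hr1
  rw [← hr₂] at hr2
  -- the ranks on pairs
  obtain ⟨r, hr⟩ : ∃ r : Fin 3 → Finset ι → ℕ, r = fun k => if k = 0 then r₁ else r₂ := ⟨_, rfl⟩
  have hrk : ∀ k, IsRank (r k) := by
    intro k
    rw [hr]
    dsimp only
    split_ifs
    · exact hr1
    · exact hr2
  have hineq : ∀ F : Finset ι, 2 * F.card ≤ ∑ k, r k F := by
    intro F
    have h1 := main_ineq (F := F) h hen hinj hne (by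
      intro U hU
      have h2 := hs U hU
      have h3 : (inside en F U).card ≤ (inside en Finset.univ U).card := by
        apply Finset.card_le_card
        intro a ha
        rw [mem_inside] at ha ⊢
        exact ⟨Finset.mem_univ a, ha.2⟩
      omega)
    have h4 : ∑ k, r k F = r₁ F + r₂ F + r₂ F := by
      rw [Fin.sum_univ_three, hr]
      rfl
    have h5 := hr1' F
    have h6 : r₁ F = rk (withEdge x y en) (insertNone F) - 1 := by rw [hr₁]
    have h7 : r₂ F = rk (fun a => (en a).image π) F := by rw [hr₂]
    unfold withEdge at h5 h6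
    rw [h4, h7]
    omega
  obtain ⟨c, hc1, hc2⟩ := partition (κ := Fin 3) (Finset.univ : Finset (ι × Bool)).card
    Finset.univ rfl (fun k A => r k (A.image Prod.fst)) (fun k => (hrk k).comap Prod.fst) (by
      intro A _
      have h1 := hineq (A.image Prod.fst)
      have h2 : A.card ≤ (A.image Prod.fst ×ˢ (Finset.univ : Finset Bool)).card := by
        apply Finset.card_le_card
        intro p hp
        rw [Finset.mem_product]
        exact ⟨Finset.mem_image_of_mem _ hp, Finset.mem_univ _⟩
      rw [Finset.card_product, Finset.card_univ, Fintype.card_bool] at h2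
      omega) (fun _ => ⟨0⟩)
  -- classes
  obtain ⟨B, hB⟩ : ∃ B : Fin 3 → Finset (ι × Bool),
    B = fun k => Finset.univ.filter (fun p => c p = some k) := ⟨_, rfl⟩
  have hB' : ∀ k, r k ((B k).image Prod.fst) = (B k).card := by
    intro k; rw [hB]; exact hc2 k
  have hBT : ∀ k, ((B k).image Prod.fst).card = (B k).card := by
    intro k
    apply le_antisymm Finset.card_image_le
    rw [← hB' k]
    exact (hrk k).le_card _
  have hBinj : ∀ k, ∀ p ∈ B k, ∀ q ∈ B k, p.1 = q.1 → p = q := by
    intro k p hp q hq hpq
    exact (Finset.card_image_iff.mp (hBT k)) hp hq hpq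
  have hsome : ∀ p, ∃ k, c p = some k := fun p =>
    Option.isSome_iff_exists.mp (hc1 p (Finset.mem_univ p))
  choose g hg using hsome
  have hgB : ∀ p k, p ∈ B k ↔ g p = k := by
    intro p k
    rw [hB]
    simp only [Finset.mem_filter, Finset.mem_univ, true_and]
    rw [hg p, Option.some_inj]
  have hgne : ∀ a, g (a, true) ≠ g (a, false) := by
    intro a he
    have h1 := hBinj (g (a, true)) (a, true) ((hgB _ _).mpr rfl) (a, false)
      ((hgB _ _).mpr he.symm) rfl
    simp at h1
  have hd : ∀ a, ∃ k : Fin 3, ∀ j, j ≠ k ↔ (g (a, true) = j ∨ g (a, false) = j) := by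
    intro a
    have h1 := hgne a
    revert h1
    generalize g (a, true) = u
    generalize g (a, false) = v
    revert u v
    decide
  choose d hd using hd
  have hT : ∀ k, (B k).image Prod.fst = Finset.univ.filter (fun a => d a ≠ k) := by
    intro k
    ext a
    rw [Finset.mem_image, Finset.mem_filter]
    constructor
    · rintro ⟨⟨a', b⟩, hp, rfl⟩
      refine ⟨Finset.mem_univ _, ?_⟩
      rw [hgB] at hp
      rw [ne_comm, hd]
      cases b
      · exact Or.inr hp
      · exact Or.inl hp
    · rintro ⟨_, h1⟩
      rw [ne_comm, hd] at h1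
      rcases h1 with h1 | h1
      · exact ⟨(a, true), (hgB _ _).mpr h1, rfl⟩
      · exact ⟨(a, false), (hgB _ _).mpr h1, rfl⟩
  have hfin : ∀ k, r k (Finset.univ.filter (fun a => d a ≠ k)) =
      (Finset.univ.filter (fun a => d a ≠ k)).card := by
    intro k
    rw [← hT, hB' k, hBT k]
  refine ⟨d, ?_, ?_, ?_⟩
  · have h1 := hfin 0
    have h2 := hr1' (Finset.univ.filter (fun a => d a ≠ 0))
    rw [hr] at h1
    simp only [if_true] at h1
    rw [hr₁] at h1
    dsimp only at h1
    omega
  · have h1 := hfin 1
    rw [hr] at h1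
    simp only [Fin.reduceEq, if_false] at h1
    rw [hr₂] at h1
    exact h1
  · have h1 := hfin 2
    rw [hr] at h1
    simp only [Fin.reduceEq, if_false] at h1
    rw [hr₂] at h1
    exact h1

end Pool.Agent.Lib.MP_eace5d_co
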