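import Mathlib

/-!
# Sparse and tight (multi)graphs, contraction, and property (P)

A finite multigraph is given by its vertex type `W`, a set `S` of edges (elements of some type `ι`)
and a function `ends : ι → Sym2 W` giving the unordered pair of ends of an edge. Parallel edges are
different elements of `S` with the same ends, so they are counted with multiplicity.
-/

namespace Pool.Agent.Lib.MP_eace5d_co

/-- The multigraph with vertex set `W`, edge set `S` and end function `ends` is `(k, l)`-sparse:
every subgraph, that is, every set `U` of vertices with a set `T` of edges all of whose ends lie in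
`U`, with `|U| ≥ k` satisfies `|T| ≤ k |U| - l`, written here as `|T| + l ≤ k |U|`. -/
def IsSparse {ι W : Type*} (k l : ℕ) (ends : ι → Sym2 W) (S : Set ι) : Prop :=
  ∀ (U : Set W) (T : Set ι), T ⊆ S → (∀ a ∈ T, ∀ w ∈ ends a, w ∈ U) → k ≤ U.ncard →
    T.ncard + l ≤ k * U.ncard

/-- The multigraph is `(k, l)`-tight: it is `(k, l)`-sparse and has exactly `k |W| - l` edges. -/
def IsTight {ι W : Type*} (k l : ℕ) (ends : ι → Sym2 W) (S : Set ι) : Prop :=
  IsSparse k l ends S ∧ S.ncard + l = k * Nat.card W

variable {V : Type*}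

/-- The simple graph `(V, S)`, where `S` is a set of pairs of vertices, is `(k, l)`-tight. -/
def GraphTight (k l : ℕ) (S : Set (Sym2 V)) : Prop := IsTight k l (fun a : Sym2 V => a) S

open Classical in
/-- The map from `V` to the vertex set `(V ∖ {x, y}) ∪ {v_e}` of the contraction by `e = xy`:
the ends of `e` go to the new vertex `v_e = none`, every other vertex stays. -/
noncomputable def collapse (e : Sym2 V) (v : V) : Option {v : V // v ∉ e} :=
  if h : v ∈ e then none else some ⟨v, h⟩

/-- The contraction `(V, S) / e` is `(k, l)`-tight. Its edges are the edges of `S` other than `e`,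
each with its ends mapped by `collapse e` (edges that become parallel stay different). -/
def ContractTight (k l : ℕ) (e : Sym2 V) (S : Set (Sym2 V)) : Prop :=
  IsTight k l (Sym2.map (collapse e)) (S \ {e})

/-- Property (P): for every edge `e` there is a partition `S₁, S₂, S₃` of the edge set with
`|S_i| = |V| - i`, `e ∈ S₁`, such that `(V, S₁ ∪ S₂)`, `(V, S₁ ∪ S₃) / e` and
`(V, S₂ ∪ S₃ ∪ {e}) / e` are `(2, 3)`-tight. -/
def PropertyP (G : SimpleGraph V) : Prop :=
  ∀ e ∈ G.edgeSet, ∃ S₁ S₂ S₃ : Set (Sym2 V),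
    (S₁ ∪ S₂ ∪ S₃ = G.edgeSet ∧ Disjoint S₁ S₂ ∧ Disjoint S₁ S₃ ∧ Disjoint S₂ S₃) ∧
    (S₁.ncard + 1 = Nat.card V ∧ S₂.ncard + 2 = Nat.card V ∧ S₃.ncard + 3 = Nat.card V) ∧
    e ∈ S₁ ∧
    GraphTight 2 3 (S₁ ∪ S₂) ∧
    ContractTight 2 3 e (S₁ ∪ S₃) ∧
    ContractTight 2 3 e (S₂ ∪ S₃ ∪ {e})

end Pool.Agent.Lib.MP_eace5d_co
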