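import Pool.Agent.Lib.MP_eace5d_co.LemN

/-!
# The rank inequality

For a set `F` of edges such that `F` together with the edge `xy` is (3,6)-sparse, twice the size of
`F` is at most the rank of `F` in the (2,3)-matroid contracted by `xy` plus twice the rank of `F` in
the (2,3)-matroid of the graph in which `x` and `y` are identified.
-/

namespace Pool.Agent.Lib.MP_eace5d_co

open Finset

/-- `π` identifies the two points `x`, `y` and nothing else. -/
structure Ident {V W : Type*} (π : V → W) (x y : V) : Prop where
  ne : x ≠ y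
  eq : π x = π y
  surj : Function.Surjective π
  inj : ∀ u v, π u = π v → u = v ∨ (u = x ∧ v = y) ∨ (u = y ∧ v = x)

namespace Ident

variable {V W : Type*} [DecidableEq V] [DecidableEq W] {π : V → W} {x y : V}

omit [DecidableEq V] in
lemma card_image (h : Ident π x y) {U : Finset V} (hU : ¬ (x ∈ U ∧ y ∈ U)) :
    (U.image π).card = U.card := by
  apply Finset.card_image_of_injOn
  intro u hu v hv huv
  rcases h.inj u v huv with e | ⟨e1, e2⟩ | ⟨e1, e2⟩
  · exact e
  · subst e1; subst e2; exact absurd ⟨hu, hv⟩ hU
  · subst e1; subst e2; exact absurd ⟨hv, hu⟩ hU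

lemma card_image' (h : Ident π x y) {U : Finset V} (hx : x ∈ U) (hy : y ∈ U) :
    (U.image π).card + 1 = U.card := by
  have h1 : U.image π = (U.erase x).image π := by
    apply Finset.Subset.antisymm
    · intro w hw
      obtain ⟨u, hu, rfl⟩ := Finset.mem_image.mp hw
      by_cases hux : u = x
      · rw [hux, h.eq]
        exact Finset.mem_image_of_mem _ (Finset.mem_erase.mpr ⟨h.ne.symm, hy⟩)
      · exact Finset.mem_image_of_mem _ (Finset.mem_erase.mpr ⟨hux, hu⟩)
    · exact Finset.image_subset_image (Finset.erase_subset _ _)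
  rw [h1, h.card_image (by simp), Finset.card_erase_of_mem hx]
  have := Finset.card_pos.mpr ⟨x, hx⟩
  omega

end Ident

/-- preimage -/
def pre {V W : Type*} [Fintype V] [DecidableEq W] (π : V → W) (C : Finset W) : Finset V :=
  Finset.univ.filter (fun v => π v ∈ C)

section

variable {V W : Type*} [Fintype V] [DecidableEq V] [DecidableEq W] {π : V → W} {x y : V}

omit [DecidableEq V] in
lemma mem_pre {C : Finset W} {v : V} : v ∈ pre π C ↔ π v ∈ C := by simp [pre]

lemma image_pre (h : Ident π x y) (C : Finset W) : (pre π C).image π = C := by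
  ext w
  rw [Finset.mem_image]
  constructor
  · rintro ⟨v, hv, rfl⟩; exact mem_pre.mp hv
  · intro hw
    obtain ⟨v, rfl⟩ := h.surj w
    exact ⟨v, mem_pre.mpr hw, rfl⟩

lemma image_inter_pre (A : Finset V) (C : Finset W) :
    (A ∩ pre π C).image π = A.image π ∩ C := by
  ext w
  rw [Finset.mem_image, Finset.mem_inter, Finset.mem_image]
  constructor
  · rintro ⟨v, hv, rfl⟩
    rw [Finset.mem_inter, mem_pre] at hv
    exact ⟨⟨v, hv.1, rfl⟩, hv.2⟩
  · rintro ⟨⟨v, hv, rfl⟩, h2⟩
    exact ⟨v, Finset.mem_inter.mpr ⟨hv, mem_pre.mpr h2⟩, rfl⟩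

lemma subset_pre {A : Finset V} {C : Finset W} : A ⊆ pre π C ↔ A.image π ⊆ C := by
  constructor
  · intro h w hw
    obtain ⟨v, hv, rfl⟩ := Finset.mem_image.mp hw
    exact mem_pre.mp (h hv)
  · intro h v hv
    exact mem_pre.mpr (h (Finset.mem_image_of_mem _ hv))

lemma card_pre_of_not (h : Ident π x y) {C : Finset W} (hz : π x ∉ C) :
    (pre π C).card = C.card := by
  have h1 := h.card_image (U := pre π C) (fun hh => hz (mem_pre.mp hh.1))
  rw [image_pre h] at h1
  exact h1.symm

lemma card_pre_of_mem (h : Ident π x y) {C : Finset W} (hz : π x ∈ C) :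
    (pre π C).card = C.card + 1 := by
  have h1 := h.card_image' (U := pre π C) (mem_pre.mpr hz) (mem_pre.mpr (h.eq ▸ hz))
  rw [image_pre h] at h1
  exact h1.symm

end

/-- the edges of `F` inside `U` -/
def inside {ι V : Type*} [DecidableEq V] (en : ι → Finset V) (F : Finset ι) (U : Finset V) :
    Finset ι := F.filter (fun a => en a ⊆ U)

section

variable {ι V W : Type*} [DecidableEq ι] [Fintype V] [DecidableEq V] [DecidableEq W]
  {π : V → W} {x y : V} {en : ι → Finset V} {F : Finset ι}

omit [DecidableEq ι] [Fintype V] in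
lemma mem_inside {U : Finset V} {a : ι} : a ∈ inside en F U ↔ a ∈ F ∧ en a ⊆ U := by
  simp [inside]

/-- twice the number of edges in a set not containing both `x` and `y` -/
lemma two_inside_le (hen : ∀ a, (en a).card = 2) (hinj : Function.Injective en)
    (hs : ∀ U : Finset V, 3 ≤ U.card →
      (inside en F U).card + (if x ∈ U ∧ y ∈ U then 1 else 0) + 6 ≤ 3 * U.card)
    {A : Finset V} (hA : 2 ≤ A.card) : 2 * (inside en F A).card ≤ 3 * fc A := by
  have h1 := fc_add hA
  by_cases h3 : 3 ≤ A.card
  · have := hs A h3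
    omega
  · have h2 : A.card = 2 := by omega
    have : (inside en F A).card ≤ 1 := by
      rw [Finset.card_le_one]
      intro a ha b hb
      rw [mem_inside] at ha hb
      apply hinj
      rw [Finset.eq_of_subset_of_card_le ha.2 (by rw [hen a, h2]),
        Finset.eq_of_subset_of_card_le hb.2 (by rw [hen b, h2])]
    omega


theorem main_ineq (h : Ident π x y) (hen : ∀ a, (en a).card = 2) (hinj : Function.Injective en)
    (hne : ∀ a, en a ≠ {x, y})
    (hs : ∀ U : Finset V, 3 ≤ U.card →
      (inside en F U).card + (if x ∈ U ∧ y ∈ U then 1 else 0) + 6 ≤ 3 * U.card) :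
    2 * F.card + 1 ≤ rk (fun o : Option ι => o.elim {x, y} en) (Finset.insertNone F) +
      2 * rk (fun a => (en a).image π) F := by
  classical
  obtain ⟨en₁, hen₁⟩ : ∃ en₁ : Option ι → Finset V, en₁ = fun o => o.elim {x, y} en := ⟨_, rfl⟩
  obtain ⟨en', hen'⟩ : ∃ en' : ι → Finset W, en' = fun a => (en a).image π := ⟨_, rfl⟩
  rw [← hen₁, ← hen']
  have hnone : en₁ none = {x, y} := by rw [hen₁]; rfl
  have hsome : ∀ a, en₁ (some a) = en a := by intro a; rw [hen₁]; rfl
  have hnxy : ∀ a, ¬ (x ∈ en a ∧ y ∈ en a) := by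
    rintro a ⟨hx, hy⟩
    apply hne a
    symm
    apply Finset.eq_of_subset_of_card_le
    · intro v hv
      rcases Finset.mem_insert.mp hv with rfl | hv
      · exact hx
      · rw [Finset.mem_singleton.mp hv]; exact hy
    · rw [hen a, Finset.card_pair h.ne]
  have hen₁c : ∀ o, (en₁ o).card = 2 := by
    intro o
    cases o with
    | none => rw [hnone]; exact Finset.card_pair h.ne
    | some a => rw [hsome]; exact hen a
  have hen'c : ∀ a, (en' a).card = 2 := by
    intro a
    rw [hen', ← hen a]; exact h.card_image (hnxy a)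
  obtain ⟨𝓐, h𝓐, hc𝓐⟩ := exists_opt hen₁c (insertNone F)
  obtain ⟨𝓒, h𝓒, hc𝓒, hmin⟩ := exists_coarse hen'c F
  obtain ⟨A₀, hA₀, hxyA₀⟩ := h𝓐.2 none (by simp)
  have hxA₀ : x ∈ A₀ := hxyA₀ (by rw [hnone]; simp)
  have hyA₀ : y ∈ A₀ := hxyA₀ (by rw [hnone]; simp)
  -- the other members do not contain both points
  have hother : ∀ A ∈ 𝓐, A ≠ A₀ → ¬ (x ∈ A ∧ y ∈ A) := by
    rintro A hA hne' ⟨hx, hy⟩
    have h1 := opt_pair h𝓐 hc𝓐 hA hA₀ hne'
    have h2 : ({x, y} : Finset V) ⊆ A ∩ A₀ := by
      intro v hv
      rcases Finset.mem_insert.mp hv with rfl | hv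
      · exact Finset.mem_inter.mpr ⟨hx, hxA₀⟩
      · rw [Finset.mem_singleton.mp hv]; exact Finset.mem_inter.mpr ⟨hy, hyA₀⟩
    have h3 := Finset.card_le_card h2
    rw [Finset.card_pair h.ne] at h3
    omega
  -- the other members are inside members of `𝓒`
  have hcontain : ∀ A ∈ 𝓐, A ≠ A₀ → ∃ C ∈ 𝓒, A.image π ⊆ C := by
    intro A hA hne'
    have hAxy := hother A hA hne'
    have hcard := h.card_image hAxy
    have hA2 := h𝓐.1 A hA
    apply coarse_contains h𝓒 hc𝓒 hmin (by rw [hcard]; exact hA2)
    have hfc : fc (A.image π) = fc A := by unfold fc; rw [hcard]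
    rw [hfc]
    have hint : ∀ C : Finset W, (A ∩ pre π C).card = (C ∩ A.image π).card := by
      intro C
      rw [← h.card_image (U := A ∩ pre π C)
        (fun hh => hAxy ⟨(Finset.mem_inter.mp hh.1).1, (Finset.mem_inter.mp hh.2).1⟩),
        image_inter_pre, Finset.inter_comm]
    refine (opt_local h𝓐 hc𝓐 hA (G := (meets 𝓒 (A.image π)).image (fun C => A ∩ pre π C))
      ?_ ?_).trans ((cost_image_le _ _).trans (le_of_eq ?_))
    · intro U hU
      obtain ⟨C, hC, rfl⟩ := Finset.mem_image.mp hU
      rw [hint C]
      exact (Finset.mem_filter.mp hC).2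
    · intro o ho hoA
      cases o with
      | none =>
        rw [hnone] at hoA
        exact absurd ⟨hoA (by simp), hoA (by simp)⟩ hAxy
      | some a =>
        rw [hsome] at hoA ⊢
        have haF : a ∈ F := by simpa using ho
        obtain ⟨C, hC, haC⟩ := h𝓒.2 a haF
        have haC' : (en a).image π ⊆ C := by rw [hen'] at haC; exact haC
        have hsub : en a ⊆ A ∩ pre π C := Finset.subset_inter hoA (subset_pre.mpr haC')
        refine ⟨A ∩ pre π C, Finset.mem_image_of_mem _ (Finset.mem_filter.mpr ⟨hC, ?_⟩), hsub⟩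
        rw [← hint C, ← hen a]
        exact Finset.card_le_card hsub
    · exact Finset.sum_congr rfl (fun C _ => by unfold fc; rw [hint C])
  -- the members of `𝓐` below a given member of `𝓒`
  obtain ⟨I, hI⟩ : ∃ I : Finset W → Finset (Finset V),
      I = fun C => (𝓐.erase A₀).filter (fun A => A.image π ⊆ C) := ⟨_, rfl⟩
  have hmemI : ∀ C A, A ∈ I C ↔ A ∈ 𝓐 ∧ A ≠ A₀ ∧ A.image π ⊆ C := by
    intro C A
    rw [hI]
    simp only [Finset.mem_filter, Finset.mem_erase]
    tauto
  have huniq : ∀ C ∈ 𝓒, ∀ D ∈ 𝓒, ∀ S : Finset W, 2 ≤ S.card → S ⊆ C → S ⊆ D → C = D := by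
    intro C hC D hD S hS hSC hSD
    by_contra hCD
    have h1 := opt_pair h𝓒 hc𝓒 hC hD hCD
    have h2 := Finset.card_le_card (Finset.subset_inter hSC hSD)
    omega
  have hIcard : ∀ C A, A ∈ I C → 2 ≤ A.card ∧ (A.image π).card = A.card := by
    intro C A hA
    obtain ⟨h1, h2, _⟩ := (hmemI C A).mp hA
    exact ⟨h𝓐.1 A h1, h.card_image (hother A h1 h2)⟩
  have hIsum : ∑ C ∈ 𝓒, cost (I C) ≤ cost (𝓐.erase A₀) := by
    unfold cost
    rw [← Finset.sum_biUnion]
    · apply Finset.sum_le_sum_of_subset
      intro A hA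
      obtain ⟨C, _, hAC⟩ := Finset.mem_biUnion.mp hA
      obtain ⟨h1, h2, _⟩ := (hmemI C A).mp hAC
      exact Finset.mem_erase.mpr ⟨h2, h1⟩
    · intro C hC D hD hCD
      rw [Function.onFun, Finset.disjoint_left]
      intro A hA hA'
      apply hCD
      obtain ⟨h1, h2⟩ := hIcard C A hA
      exact huniq C hC D hD (A.image π) (by rw [h2]; exact h1) ((hmemI C A).mp hA).2.2
        ((hmemI D A).mp hA').2.2
  -- the set `A'`
  obtain ⟨z, hz⟩ : ∃ z, z = π x := ⟨_, rfl⟩
  obtain ⟨A', hA'⟩ : ∃ A', A' = (A₀.image π).erase z := ⟨_, rfl⟩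
  have hzA₀ : z ∈ A₀.image π := by rw [hz]; exact Finset.mem_image_of_mem _ hxA₀
  have hA'c : A'.card + 2 = A₀.card := by
    have h1 := h.card_image' hxA₀ hyA₀
    have h2 := Finset.card_pos.mpr ⟨z, hzA₀⟩
    rw [hA', Finset.card_erase_of_mem hzA₀]
    omega
  have hzA' : z ∉ A' := by rw [hA']; simp
  -- every edge of `F` below `C` is in a member of `I C` or in `A₀ ∩ pre C`
  have hcovC : ∀ C ∈ 𝓒, ∀ a ∈ F, (en a).image π ⊆ C →
      (∃ A ∈ I C, en a ⊆ A) ∨ en a ⊆ A₀ ∩ pre π C := by
    intro C hC a ha haC
    obtain ⟨A, hA, haA⟩ := h𝓐.2 (some a) (by simpa using ha)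
    rw [hsome] at haA
    by_cases hAA : A = A₀
    · right
      subst hAA
      exact Finset.subset_inter haA (subset_pre.mpr haC)
    · left
      obtain ⟨D, hD, hAD⟩ := hcontain A hA hAA
      have hCD : D = C := by
        refine huniq D hD C hC ((en a).image π) ?_ ((Finset.image_subset_image haA).trans hAD) haC
        have := hen'c a
        rw [hen'] at this
        exact this.ge
      subst hCD
      exact ⟨A, (hmemI D A).mpr ⟨hA, hAA, hAD⟩, haA⟩
  -- the local bound
  have hloc : ∀ C ∈ 𝓒, 2 * (inside en' F C).card ≤ 2 * fc C + cost (I C) +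
      2 * (if z ∈ C then (C ∩ A').card else (C ∩ A').card - 3) := by
    intro C hC
    have hC2 := h𝓒.1 C hC
    have hfC := fc_add hC2
    have hins : inside en' F C = inside en F (pre π C) := by
      unfold inside
      apply Finset.filter_congr
      intro a _
      rw [subset_pre, hen']
    rw [hins]
    by_cases hzC : z ∈ C
    · rw [if_pos hzC]
      have hxp : x ∈ pre π C := mem_pre.mpr (hz ▸ hzC)
      have hyp : y ∈ pre π C := mem_pre.mpr (by rw [← h.eq, ← hz]; exact hzC)
      -- (i)
      have hi := hs (pre π C) (by rw [card_pre_of_mem h (hz ▸ hzC)]; omega)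
      rw [if_pos ⟨hxp, hyp⟩, card_pre_of_mem h (hz ▸ hzC)] at hi
      -- (ii)
      have hBcard : (A₀ ∩ pre π C).card = (C ∩ A').card + 2 := by
        have e1 := h.card_image' (U := A₀ ∩ pre π C) (Finset.mem_inter.mpr ⟨hxA₀, hxp⟩)
          (Finset.mem_inter.mpr ⟨hyA₀, hyp⟩)
        rw [image_inter_pre] at e1
        have e2 : C ∩ A' = (A₀.image π ∩ C).erase z := by
          rw [hA', Finset.inter_erase, Finset.inter_comm]
        rw [e2, Finset.card_erase_of_mem (Finset.mem_inter.mpr ⟨hzA₀, hzC⟩)]
        have := Finset.card_pos.mpr ⟨z, Finset.mem_inter.mpr ⟨hzA₀, hzC⟩⟩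
        omega
      have hB : 2 * (inside en F (A₀ ∩ pre π C)).card ≤ 6 * (C ∩ A').card := by
        by_cases hc : (C ∩ A').card = 0
        · have : inside en F (A₀ ∩ pre π C) = ∅ := by
            rw [Finset.eq_empty_iff_forall_notMem]
            intro a ha
            rw [mem_inside] at ha
            apply hnxy a
            have : en a = A₀ ∩ pre π C :=
              Finset.eq_of_subset_of_card_le ha.2 (by rw [hen a, hBcard, hc])
            rw [this]
            exact ⟨Finset.mem_inter.mpr ⟨hxA₀, hxp⟩, Finset.mem_inter.mpr ⟨hyA₀, hyp⟩⟩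
          rw [this]; simp
        · have h3 := hs (A₀ ∩ pre π C) (by omega)
          omega
      have hcount : (inside en F (pre π C)).card ≤
          ∑ A ∈ I C, (inside en F A).card + (inside en F (A₀ ∩ pre π C)).card := by
        have hsub : inside en F (pre π C) ⊆
            (I C).biUnion (fun A => inside en F A) ∪ inside en F (A₀ ∩ pre π C) := by
          intro a ha
          rw [mem_inside, subset_pre] at ha
          rcases hcovC C hC a ha.1 ha.2 with ⟨A, hA, haA⟩ | haA
          · exact Finset.mem_union_left _ (Finset.mem_biUnion.mpr ⟨A, hA, mem_inside.mpr ⟨ha.1, haA⟩⟩)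
          · exact Finset.mem_union_right _ (mem_inside.mpr ⟨ha.1, haA⟩)
        refine (Finset.card_le_card hsub).trans ((Finset.card_union_le _ _).trans ?_)
        have := Finset.card_biUnion_le (s := I C) (t := fun A => inside en F A)
        omega
      have hsumI : 2 * ∑ A ∈ I C, (inside en F A).card ≤ 3 * cost (I C) := by
        unfold cost
        rw [Finset.mul_sum, Finset.mul_sum]
        exact Finset.sum_le_sum (fun A hA => two_inside_le hen hinj hs (hIcard C A hA).1)
      omega
    · rw [if_neg hzC]
      have hcp := card_pre_of_not h (C := C) (hz ▸ hzC)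
      by_cases hC3 : 3 ≤ C.card
      · have hi := hs (pre π C) (by omega)
        have hCA : C ∩ A' = C ∩ A₀.image π := by
          rw [hA']
          ext w
          simp only [Finset.mem_inter, Finset.mem_erase]
          constructor
          · rintro ⟨h1, _, h2⟩; exact ⟨h1, h2⟩
          · rintro ⟨h1, h2⟩
            exact ⟨h1, fun hw => hzC (hw ▸ h1), h2⟩
        by_cases hc : 2 ≤ (C ∩ A').card
        · have hl := opt_local h𝓒 hc𝓒 hC
            (G := insert (C ∩ A') ((I C).image (fun A => A.image π))) (by
              intro U hU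
              rcases Finset.mem_insert.mp hU with rfl | hU
              · exact hc
              · obtain ⟨A, hA, rfl⟩ := Finset.mem_image.mp hU
                obtain ⟨h1, h2⟩ := hIcard C A hA
                rw [h2]; exact h1) (by
              intro a ha haC
              rw [hen'] at haC ⊢
              rcases hcovC C hC a ha haC with ⟨A, hA, haA⟩ | haA
              · exact ⟨A.image π, Finset.mem_insert_of_mem (Finset.mem_image_of_mem _ hA),
                  Finset.image_subset_image haA⟩
              · refine ⟨C ∩ A', Finset.mem_insert_self _ _, ?_⟩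
                rw [hCA]
                refine Finset.subset_inter haC ?_
                exact Finset.image_subset_image (haA.trans Finset.inter_subset_left))
          have h1 := cost_insert_le (C ∩ A') ((I C).image (fun A => A.image π))
          have h2 := cost_image_le (I C) (fun A => A.image π)
          have h3 : ∑ A ∈ I C, fc (A.image π) = cost (I C) := by
            unfold cost
            exact Finset.sum_congr rfl (fun A hA => by unfold fc; rw [(hIcard C A hA).2])
          have h4 := fc_add hc
          omega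
        · have hl := opt_local h𝓒 hc𝓒 hC
            (G := (I C).image (fun A => A.image π)) (by
              intro U hU
              obtain ⟨A, hA, rfl⟩ := Finset.mem_image.mp hU
              obtain ⟨h1, h2⟩ := hIcard C A hA
              rw [h2]; exact h1) (by
              intro a ha haC
              have h2c := hen'c a
              rw [hen'] at haC h2c ⊢
              rcases hcovC C hC a ha haC with ⟨A, hA, haA⟩ | haA
              · exact ⟨A.image π, Finset.mem_image_of_mem _ hA, Finset.image_subset_image haA⟩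
              · exfalso
                apply hc
                rw [hCA, ← h2c]
                apply Finset.card_le_card
                refine Finset.subset_inter haC ?_
                exact Finset.image_subset_image (haA.trans Finset.inter_subset_left))
          have h2 := cost_image_le (I C) (fun A => A.image π)
          have h3 : ∑ A ∈ I C, fc (A.image π) = cost (I C) := by
            unfold cost
            exact Finset.sum_congr rfl (fun A hA => by unfold fc; rw [(hIcard C A hA).2])
          omega
      · have h1 := two_inside_le (F := F) hen hinj hs (A := pre π C) (by omega)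
        have h2 : fc (pre π C) = 1 := by unfold fc; omega
        have h3 : fc C = 1 := by unfold fc; omega
        omega
  -- sum up
  have hF : F.card ≤ ∑ C ∈ 𝓒, (inside en' F C).card := by
    have : F ⊆ 𝓒.biUnion (fun C => inside en' F C) := by
      intro a ha
      obtain ⟨C, hC, haC⟩ := h𝓒.2 a ha
      exact Finset.mem_biUnion.mpr ⟨C, hC, mem_inside.mpr ⟨ha, haC⟩⟩
    exact (Finset.card_le_card this).trans Finset.card_biUnion_le
  have hsum := Finset.sum_le_sum hloc
  rw [Finset.sum_add_distrib, Finset.sum_add_distrib, ← Finset.mul_sum, ← Finset.mul_sum,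
    ← Finset.mul_sum, Finset.sum_ite] at hsum
  have hN := lemN 𝓒 h𝓒.1 (fun T hT hne' => opt_merge h𝓒 hc𝓒 hT hne') z A' hzA'
  have hA₀c := cost_erase hA₀
  have hfA₀ := fc_add (h𝓐.1 A₀ hA₀)
  have hc' : ∑ C ∈ 𝓒, fc C = rk en' F := hc𝓒
  rw [hc'] at hsum
  omega

end

end Pool.Agent.Lib.MP_eace5d_co
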