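import Pool.Agent.Lib.MP_eace5d_co.Rank

/-!
# A counting lemma on families of sets
-/

namespace Pool.Agent.Lib.MP_eace5d_co

open Finset

variable {W : Type*} [DecidableEq W]

lemma sum_fc_add {T : Finset (Finset W)} (h : ∀ C ∈ T, 2 ≤ C.card) :
    cost T + 3 * T.card = 2 * ∑ C ∈ T, C.card := by
  unfold cost
  have : ∑ C ∈ T, (fc C + 3) = ∑ C ∈ T, 2 * C.card :=
    Finset.sum_congr rfl (fun C hC => fc_add (h C hC))
  rw [Finset.sum_add_distrib, ← Finset.mul_sum, Finset.sum_const, smul_eq_mul] at this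
  omega

theorem lemN (F : Finset (Finset W)) (h2 : ∀ C ∈ F, 2 ≤ C.card)
    (hm : ∀ T ⊆ F, T.Nonempty → cost T ≤ fc (T.biUnion id)) (z : W) (A : Finset W)
    (hz : z ∉ A) :
    ∑ C ∈ F.filter (fun C => z ∈ C), (C ∩ A).card +
      ∑ C ∈ F.filter (fun C => ¬ z ∈ C), ((C ∩ A).card - 3) ≤ A.card := by
  classical
  -- pairs
  have hpair : ∀ C ∈ F, ∀ D ∈ F, C ≠ D → (C ∩ D).card ≤ 1 := by
    intro C hC D hD hne
    have h1 := hm {C, D} (by
      intro W hW
      rcases Finset.mem_insert.mp hW with rfl | h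
      · exact hC
      · rw [Finset.mem_singleton.mp h]; exact hD) ⟨C, by simp⟩
    have h2' : cost {C, D} = fc C + fc D := Finset.sum_pair hne
    have h3 : ({C, D} : Finset (Finset W)).biUnion id = C ∪ D := by
      rw [Finset.biUnion_insert, Finset.singleton_biUnion]; rfl
    rw [h2', h3] at h1
    have h4 := Finset.card_union_add_card_inter C D
    have h5 := fc_add (h2 C hC)
    have h6 := fc_add (h2 D hD)
    have h7 : 2 ≤ (C ∪ D).card := (h2 C hC).trans (Finset.card_le_card Finset.subset_union_left)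
    have h8 := fc_add h7
    omega
  set J := F.filter (fun C => z ∈ C) with hJ
  set K := F.filter (fun C => ¬ z ∈ C) with hK
  set K4 := K.filter (fun C => 4 ≤ (C ∩ A).card) with hK4
  have hJF : ∀ C ∈ J, C ∈ F ∧ z ∈ C := fun C hC => Finset.mem_filter.mp hC
  have hK4F : ∀ C ∈ K4, C ∈ F ∧ z ∉ C ∧ 4 ≤ (C ∩ A).card := by
    intro C hC
    rw [hK4, hK, Finset.mem_filter, Finset.mem_filter] at hC
    exact ⟨hC.1.1, hC.1.2, hC.2⟩
  -- the sets of `J` are disjoint on `A`
  have hdisj : ∀ C ∈ J, ∀ D ∈ J, C ≠ D → Disjoint (C ∩ A) (D ∩ A) := by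
    intro C hC D hD hne
    rw [Finset.disjoint_left]
    intro p hp hp'
    rw [Finset.mem_inter] at hp hp'
    have h1 := hpair C (hJF C hC).1 D (hJF D hD).1 hne
    have h3 : p = z := Finset.card_le_one.mp h1 p (Finset.mem_inter.mpr ⟨hp.1, hp'.1⟩) z
      (Finset.mem_inter.mpr ⟨(hJF C hC).2, (hJF D hD).2⟩)
    rw [h3] at hp
    exact hz hp.2
  set UJ := J.biUnion (fun C => C ∩ A) with hUJ
  have hUJc : UJ.card = ∑ C ∈ J, (C ∩ A).card := Finset.card_biUnion hdisj
  have hUJA : UJ ⊆ A := by
    intro p hp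
    obtain ⟨C, _, hpC⟩ := Finset.mem_biUnion.mp hp
    exact (Finset.mem_inter.mp hpC).2
  set ν := (A \ UJ).card with hν
  have hA : ν + ∑ C ∈ J, (C ∩ A).card = A.card := by
    rw [← hUJc, hν]; exact Finset.card_sdiff_add_card_eq_card hUJA
  -- reduce to `K4`
  have hsumK : ∑ C ∈ K, ((C ∩ A).card - 3) = ∑ C ∈ K4, ((C ∩ A).card - 3) := by
    symm
    apply Finset.sum_subset (Finset.filter_subset _ _)
    intro C hC hC'
    rw [Finset.mem_filter, not_and] at hC'
    have := hC' hC
    omega
  rw [hsumK]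
  suffices hmain : ∑ C ∈ K4, ((C ∩ A).card - 3) ≤ ν by omega
  by_cases hne : K4.Nonempty
  swap
  · rw [Finset.not_nonempty_iff_eq_empty] at hne
    rw [hne]; simp
  -- each set of `K4` meets at most two sets of `J`
  have htau : ∀ C ∈ K4, (J.filter (fun D => (C ∩ D).Nonempty)).card ≤ 2 := by
    intro C hC
    obtain ⟨hCF, hzC, -⟩ := hK4F C hC
    set JC := J.filter (fun D => (C ∩ D).Nonempty) with hJC
    have hJCF : ∀ D ∈ JC, D ∈ F ∧ z ∈ D ∧ (C ∩ D).Nonempty := by
      intro D hD
      rw [hJC, Finset.mem_filter] at hD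
      exact ⟨(hJF D hD.1).1, (hJF D hD.1).2, hD.2⟩
    have hCJ : C ∉ JC := fun h => hzC (hJCF C h).2.1
    have h1 := hm (insert C JC) (by
      intro D hD
      rcases Finset.mem_insert.mp hD with rfl | h
      · exact hCF
      · exact (hJCF D h).1) ⟨C, by simp⟩
    have h3 : cost (insert C JC) = fc C + cost JC := Finset.sum_insert hCJ
    have h4 : (insert C JC).biUnion id ⊆ insert z (C ∪ JC.biUnion (fun D => D \ insert z C)) := by
      intro p hp
      obtain ⟨D, hD, hpD⟩ := Finset.mem_biUnion.mp hp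
      simp only [id] at hpD
      by_cases hpz : p = z
      · rw [hpz]; exact Finset.mem_insert_self _ _
      · apply Finset.mem_insert_of_mem
        by_cases hpC : p ∈ C
        · exact Finset.mem_union_left _ hpC
        · apply Finset.mem_union_right
          rcases Finset.mem_insert.mp hD with rfl | h
          · exact absurd hpD hpC
          · refine Finset.mem_biUnion.mpr ⟨D, h, ?_⟩
            rw [Finset.mem_sdiff, Finset.mem_insert, not_or]
            exact ⟨hpD, hpz, hpC⟩
    have h5 : ((insert C JC).biUnion id).card ≤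
        1 + (C.card + ∑ D ∈ JC, (D.card - 2)) := by
      refine (Finset.card_le_card h4).trans ?_
      refine (Finset.card_insert_le _ _).trans ?_
      have h6 := Finset.card_union_le C (JC.biUnion (fun D => D \ insert z C))
      have h7 : (JC.biUnion (fun D => D \ insert z C)).card ≤ ∑ D ∈ JC, (D.card - 2) := by
        refine Finset.card_biUnion_le.trans (Finset.sum_le_sum (fun D hD => ?_))
        obtain ⟨hDF, hzD, p, hp⟩ := hJCF D hD
        rw [Finset.mem_inter] at hp
        have hpz : p ≠ z := fun h => hzC (h ▸ hp.1)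
        have h8 : ({z, p} : Finset W) ⊆ insert z C ∩ D := by
          intro q hq
          rcases Finset.mem_insert.mp hq with rfl | hq
          · exact Finset.mem_inter.mpr ⟨Finset.mem_insert_self _ _, hzD⟩
          · rw [Finset.mem_singleton.mp hq]
            exact Finset.mem_inter.mpr ⟨Finset.mem_insert_of_mem hp.1, hp.2⟩
        have h9 := Finset.card_le_card h8
        rw [Finset.card_pair hpz.symm] at h9
        rw [Finset.card_sdiff]
        omega
      omega
    have h6 : ∑ D ∈ JC, (D.card - 2) + 2 * JC.card = ∑ D ∈ JC, D.card := by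
      have : ∑ D ∈ JC, ((D.card - 2) + 2) = ∑ D ∈ JC, D.card := by
        refine Finset.sum_congr rfl (fun D hD => ?_)
        have := h2 D (hJCF D hD).1
        omega
      rw [Finset.sum_add_distrib, Finset.sum_const, smul_eq_mul] at this
      omega
    have h7 := sum_fc_add (fun D hD => h2 D (hJCF D hD).1 : ∀ D ∈ JC, 2 ≤ D.card)
    have h8 := fc_add (h2 C hCF)
    have h9 : 2 ≤ ((insert C JC).biUnion id).card :=
      (h2 C hCF).trans (Finset.card_le_card (Finset.subset_biUnion_of_mem id (by simp)))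
    have h10 := fc_add h9
    omega
  -- the main merge
  set JT := J.filter (fun D => ∃ C ∈ K4, (C ∩ D).Nonempty) with hJT
  have hJTF : ∀ D ∈ JT, D ∈ F ∧ z ∈ D := by
    intro D hD
    rw [hJT, Finset.mem_filter] at hD
    exact hJF D hD.1
  have hJTc : JT.card ≤ 2 * K4.card := by
    have h1 : JT ⊆ K4.biUnion (fun C => J.filter (fun D => (C ∩ D).Nonempty)) := by
      intro D hD
      rw [hJT, Finset.mem_filter] at hD
      obtain ⟨hDJ, C, hC, hCD⟩ := hD
      exact Finset.mem_biUnion.mpr ⟨C, hC, Finset.mem_filter.mpr ⟨hDJ, hCD⟩⟩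
    refine (Finset.card_le_card h1).trans (Finset.card_biUnion_le.trans ?_)
    refine (Finset.sum_le_sum htau).trans ?_
    rw [Finset.sum_const, smul_eq_mul]; omega
  have hdis : Disjoint K4 JT := by
    rw [Finset.disjoint_left]
    intro C hC hC'
    exact (hK4F C hC).2.1 (hJTF C hC').2
  have h1 := hm (K4 ∪ JT) (by
    intro D hD
    rcases Finset.mem_union.mp hD with h | h
    · exact (hK4F D h).1
    · exact (hJTF D h).1) (hne.mono Finset.subset_union_left)
  have h3 : cost (K4 ∪ JT) = cost K4 + cost JT := Finset.sum_union hdis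
  have h4 : (K4 ∪ JT).biUnion id ⊆ insert z (JT.biUnion (fun D => D.erase z) ∪
      ((A \ UJ) ∪ K4.biUnion (fun C => C \ A))) := by
    intro p hp
    obtain ⟨D, hD, hpD⟩ := Finset.mem_biUnion.mp hp
    simp only [id] at hpD
    by_cases hpz : p = z
    · rw [hpz]; exact Finset.mem_insert_self _ _
    · apply Finset.mem_insert_of_mem
      rcases Finset.mem_union.mp hD with h | h
      · by_cases hpA : p ∈ A
        · by_cases hpU : p ∈ UJ
          · obtain ⟨E, hE, hpE⟩ := Finset.mem_biUnion.mp hpU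
            rw [Finset.mem_inter] at hpE
            apply Finset.mem_union_left
            refine Finset.mem_biUnion.mpr ⟨E, ?_, Finset.mem_erase.mpr ⟨hpz, hpE.1⟩⟩
            exact Finset.mem_filter.mpr ⟨hE, D, h, p, Finset.mem_inter.mpr ⟨hpD, hpE.1⟩⟩
          · apply Finset.mem_union_right
            apply Finset.mem_union_left
            exact Finset.mem_sdiff.mpr ⟨hpA, hpU⟩
        · apply Finset.mem_union_right
          apply Finset.mem_union_right
          exact Finset.mem_biUnion.mpr ⟨D, h, Finset.mem_sdiff.mpr ⟨hpD, hpA⟩⟩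
      · apply Finset.mem_union_left
        exact Finset.mem_biUnion.mpr ⟨D, h, Finset.mem_erase.mpr ⟨hpz, hpD⟩⟩
  have h5 : ((K4 ∪ JT).biUnion id).card ≤
      1 + (∑ D ∈ JT, (D.card - 1) + (ν + ∑ C ∈ K4, (C \ A).card)) := by
    refine (Finset.card_le_card h4).trans ?_
    refine (Finset.card_insert_le _ _).trans ?_
    have e1 := Finset.card_union_le (JT.biUnion (fun D => D.erase z))
      ((A \ UJ) ∪ K4.biUnion (fun C => C \ A))
    have e2 := Finset.card_union_le (A \ UJ) (K4.biUnion (fun C => C \ A))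
    have e3 : (K4.biUnion (fun C => C \ A)).card ≤ ∑ C ∈ K4, (C \ A).card :=
      Finset.card_biUnion_le
    have e4 : (JT.biUnion (fun D => D.erase z)).card ≤ ∑ D ∈ JT, (D.card - 1) := by
      refine Finset.card_biUnion_le.trans (Finset.sum_le_sum (fun D hD => ?_))
      rw [Finset.card_erase_of_mem (hJTF D hD).2]
    omega
  have h6 : ∑ D ∈ JT, (D.card - 1) + JT.card = ∑ D ∈ JT, D.card := by
    have : ∑ D ∈ JT, ((D.card - 1) + 1) = ∑ D ∈ JT, D.card := by
      refine Finset.sum_congr rfl (fun D hD => ?_)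
      have := h2 D (hJTF D hD).1
      omega
    rw [Finset.sum_add_distrib, Finset.sum_const, smul_eq_mul] at this
    omega
  have h7 := sum_fc_add (fun D hD => h2 D (hJTF D hD).1 : ∀ D ∈ JT, 2 ≤ D.card)
  have h8 := sum_fc_add (fun D hD => h2 D (hK4F D hD).1 : ∀ D ∈ K4, 2 ≤ D.card)
  have h9 : ∑ C ∈ K4, (C \ A).card + ∑ C ∈ K4, (C ∩ A).card = ∑ C ∈ K4, C.card := by
    rw [← Finset.sum_add_distrib]
    exact Finset.sum_congr rfl (fun C _ => Finset.card_sdiff_add_card_inter C A)
  have h10 : ∑ C ∈ K4, ((C ∩ A).card - 3) + 3 * K4.card = ∑ C ∈ K4, (C ∩ A).card := by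
    have : ∑ C ∈ K4, (((C ∩ A).card - 3) + 3) = ∑ C ∈ K4, (C ∩ A).card := by
      refine Finset.sum_congr rfl (fun C hC => ?_)
      have := (hK4F C hC).2.2
      omega
    rw [Finset.sum_add_distrib, Finset.sum_const, smul_eq_mul] at this
    omega
  obtain ⟨C₀, hC₀⟩ := hne
  have h11 : 2 ≤ ((K4 ∪ JT).biUnion id).card :=
    (h2 C₀ (hK4F C₀ hC₀).1).trans (Finset.card_le_card
      (Finset.subset_biUnion_of_mem id (Finset.mem_union_left _ hC₀)))
  have h12 := fc_add h11
  omega

end Pool.Agent.Lib.MP_eace5d_co
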