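import Pool.Agent.Lib.MP_eace5d_co.Decomp
import Pool.Agent.Lib.MP_eace5d_co.Defs

/-!
# The main theorem: (3,6)-tight if and only if property (P)
-/

namespace Pool.Agent.Lib.MP_eace5d_co

open Finset

section

variable {V : Type*}

lemma collapse_mem {e : Sym2 V} {v : V} (h : v ∈ e) : collapse e v = none := by
  unfold collapse; rw [dif_pos h]

lemma collapse_not_mem {e : Sym2 V} {v : V} (h : v ∉ e) : collapse e v = some ⟨v, h⟩ := by
  unfold collapse; rw [dif_neg h]

lemma ident_collapse {x y : V} (hxy : x ≠ y) : Ident (collapse s(x, y)) x y := by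
  have hx : x ∈ s(x, y) := Sym2.mem_mk_left x y
  have hy : y ∈ s(x, y) := Sym2.mem_mk_right x y
  refine ⟨hxy, ?_, ?_, ?_⟩
  · rw [collapse_mem hx, collapse_mem hy]
  · intro w
    cases w with
    | none => exact ⟨x, collapse_mem hx⟩
    | some v => exact ⟨v.1, collapse_not_mem v.2⟩
  · intro u v huv
    by_cases hu : u ∈ s(x, y)
    · by_cases hv : v ∈ s(x, y)
      · rw [Sym2.mem_iff] at hu hv
        rcases hu with rfl | rfl <;> rcases hv with rfl | rfl <;> simp
      · rw [collapse_mem hu, collapse_not_mem hv] at huv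
        simp at huv
    · by_cases hv : v ∈ s(x, y)
      · rw [collapse_mem hv, collapse_not_mem hu] at huv
        simp at huv
      · rw [collapse_not_mem hu, collapse_not_mem hv] at huv
        left
        simpa using huv

lemma ncard_collapse [Finite V] {x y : V} (hxy : x ≠ y) {U : Set V} (hx : x ∈ U) (hy : y ∈ U) :
    (collapse s(x, y) '' U).ncard + 1 = U.ncard := by
  classical
  have := Fintype.ofFinite V
  have h := (ident_collapse hxy).card_image' (U := U.toFinset) (by simpa using hx)
    (by simpa using hy)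
  rw [Set.ncard_eq_toFinset_card', Set.ncard_eq_toFinset_card', Set.toFinset_image]
  exact h

end

/-- The easy direction. -/
theorem tight_of_P {V : Type*} [Finite V] (G : SimpleGraph V)
    (hG : G.edgeSet.Nonempty) (hP : PropertyP G) : GraphTight 3 6 G.edgeSet := by
  constructor
  · intro U T hT hTU hU
    rcases T.eq_empty_or_nonempty with rfl | ⟨e, he⟩
    · simp; omega
    obtain ⟨S₁, S₂, S₃, ⟨hun, h12, h13, h23⟩, -, heS, t1, t2, t3⟩ := hP e (hT he)
    have heU : ∀ w ∈ e, w ∈ U := hTU e he
    have heG : e ∈ G.edgeSet := hT he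
    induction e using Sym2.ind with
    | _ x y =>
    have hxy : x ≠ y := by
      intro h
      subst h
      exact G.loopless.irrefl x heG
    have hx : x ∈ U := heU x (Sym2.mem_mk_left x y)
    have hy : y ∈ U := heU y (Sym2.mem_mk_right x y)
    have hU' := ncard_collapse hxy hx hy
    have he2 : s(x, y) ∉ S₂ := fun h => Set.disjoint_left.mp h12 heS h
    have he3 : s(x, y) ∉ S₃ := fun h => Set.disjoint_left.mp h13 heS h
    have b1 := t1.1 U ((T ∩ S₁) ∪ (T ∩ S₂)) (by
      rintro a (⟨_, h⟩ | ⟨_, h⟩)
      · exact Or.inl h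
      · exact Or.inr h) (by
      rintro a (⟨h, _⟩ | ⟨h, _⟩) w hw
      · exact hTU a h w hw
      · exact hTU a h w hw) (by omega)
    have hmap : ∀ a ∈ T, ∀ w ∈ Sym2.map (collapse s(x, y)) a, w ∈ collapse s(x, y) '' U := by
      intro a ha w hw
      rw [Sym2.mem_map] at hw
      obtain ⟨v, hv, rfl⟩ := hw
      exact ⟨v, hTU a ha v hv, rfl⟩
    have b2 := t2.1 (collapse s(x, y) '' U) (((T ∩ S₁) \ {s(x, y)}) ∪ (T ∩ S₃)) (by
      rintro a (⟨⟨_, h⟩, h'⟩ | ⟨_, h⟩)
      · exact ⟨Or.inl h, h'⟩
      · refine ⟨Or.inr h, ?_⟩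
        rintro rfl
        exact he3 h) (by
      rintro a (⟨⟨h, _⟩, _⟩ | ⟨h, _⟩) w hw
      · exact hmap a h w hw
      · exact hmap a h w hw) (by omega)
    have b3 := t3.1 (collapse s(x, y) '' U) ((T ∩ S₂) ∪ (T ∩ S₃)) (by
      rintro a (⟨_, h⟩ | ⟨_, h⟩)
      · refine ⟨Or.inl (Or.inl h), ?_⟩
        rintro rfl
        exact he2 h
      · refine ⟨Or.inl (Or.inr h), ?_⟩
        rintro rfl
        exact he3 h) (by
      rintro a (⟨h, _⟩ | ⟨h, _⟩) w hw
      · exact hmap a h w hw
      · exact hmap a h w hw) (by omega)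
    have d12 : Disjoint (T ∩ S₁) (T ∩ S₂) :=
      h12.mono Set.inter_subset_right Set.inter_subset_right
    have d13 : Disjoint (T ∩ S₁) (T ∩ S₃) :=
      h13.mono Set.inter_subset_right Set.inter_subset_right
    have d23 : Disjoint (T ∩ S₂) (T ∩ S₃) :=
      h23.mono Set.inter_subset_right Set.inter_subset_right
    rw [Set.ncard_union_eq d12 (Set.toFinite _) (Set.toFinite _)] at b1
    rw [Set.ncard_union_eq (d13.mono Set.sdiff_subset le_rfl) (Set.toFinite _)
      (Set.toFinite _)] at b2
    rw [Set.ncard_union_eq d23 (Set.toFinite _) (Set.toFinite _)] at b3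
    have b4 := Set.ncard_sdiff_singleton_add_one (s := T ∩ S₁) (a := s(x, y)) ⟨he, heS⟩
      (Set.toFinite _)
    have b5 : T.ncard ≤ (T ∩ S₁).ncard + (T ∩ S₂).ncard + (T ∩ S₃).ncard := by
      have h1 : T ⊆ (T ∩ S₁) ∪ (T ∩ S₂) ∪ (T ∩ S₃) := by
        intro a ha
        have : a ∈ S₁ ∪ S₂ ∪ S₃ := by rw [hun]; exact hT ha
        rcases this with (h | h) | h
        · exact Or.inl (Or.inl ⟨ha, h⟩)
        · exact Or.inl (Or.inr ⟨ha, h⟩)
        · exact Or.inr ⟨ha, h⟩
      refine (Set.ncard_le_ncard h1 (Set.toFinite _)).trans ?_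
      have h2 := Set.ncard_union_le ((T ∩ S₁) ∪ (T ∩ S₂)) (T ∩ S₃)
      have h3 := Set.ncard_union_le (T ∩ S₁) (T ∩ S₂)
      omega
    omega
  · obtain ⟨e, he⟩ := hG
    obtain ⟨S₁, S₂, S₃, ⟨hun, h12, h13, h23⟩, ⟨n1, n2, n3⟩, -⟩ := hP e he
    rw [← hun, Set.ncard_union_eq (Set.disjoint_union_left.mpr ⟨h13, h23⟩) (Set.toFinite _)
      (Set.toFinite _), Set.ncard_union_eq h12 (Set.toFinite _) (Set.toFinite _)]
    omega

/-- from rank to tightness -/
lemma isTight_of_rk {κ ι W : Type*} [DecidableEq κ] [DecidableEq W] [Finite W] {ends : ι → Sym2 W}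
    {S : Set ι} {I : Finset κ} {f : κ → ι} {en : κ → Finset W} (hen : ∀ o, (en o).card = 2)
    (hf : Set.InjOn f I) (hfI : f '' I = S) (hends : ∀ o ∈ I, ∀ w, w ∈ ends (f o) ↔ w ∈ en o)
    (hrk : rk en I = I.card) (hcard : I.card + 3 = 2 * Nat.card W) : IsTight 2 3 ends S := by
  constructor
  · intro U T hTS hTU hU
    obtain ⟨U', rfl⟩ : ∃ U' : Finset W, U = ↑U' := ⟨U.toFinite.toFinset, by simp⟩
    rw [Set.ncard_coe_finset] at hU ⊢
    have h1 := sparse_of_rk hen hrk U' hU
    have h2 : T ⊆ f '' ((I.filter (fun a => en a ⊆ U') : Finset κ) : Set κ) := by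
      intro a ha
      have h3 : a ∈ f '' I := by rw [hfI]; exact hTS ha
      obtain ⟨o, ho, rfl⟩ := h3
      refine ⟨o, ?_, rfl⟩
      rw [Finset.mem_coe, Finset.mem_filter]
      refine ⟨ho, ?_⟩
      intro w hw
      exact hTU (f o) ha w ((hends o ho w).mpr hw)
    have h3 := Set.ncard_le_ncard h2 ((Finset.finite_toSet _).image f)
    have h4 := Set.ncard_image_le (f := f) (Finset.finite_toSet (I.filter (fun a => en a ⊆ U')))
    rw [Set.ncard_coe_finset] at h4
    omega
  · rw [← hfI, Set.InjOn.ncard_image hf, Set.ncard_coe_finset, hcard]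

lemma mem_pair_of_toFinset {V : Type*} [DecidableEq V] {a b : Sym2 V}
    (h : a.toFinset = b.toFinset) : a = b := by
  apply Sym2.ext
  intro v
  rw [← Sym2.mem_toFinset, h, Sym2.mem_toFinset]

/-- The main direction. -/
theorem P_of_tight {V : Type*} [Finite V] (G : SimpleGraph V)
    (hT : GraphTight 3 6 G.edgeSet) : PropertyP G := by
  classical
  have := Fintype.ofFinite V
  intro e he
  induction e using Sym2.ind with
  | _ x y =>
  have hxy : x ≠ y := by
    intro h
    subst h
    exact G.loopless.irrefl x he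
  obtain ⟨e, hedef⟩ : ∃ e, e = s(x, y) := ⟨_, rfl⟩
  rw [← hedef] at he ⊢
  -- the other edges
  let ι := {a : Sym2 V // a ∈ G.edgeSet ∧ a ≠ e}
  have : Fintype ι := Fintype.ofFinite ι
  let en : ι → Finset V := fun a => a.1.toFinset
  have hndiag : ∀ a ∈ G.edgeSet, ¬ a.IsDiag := fun a ha => G.not_isDiag_of_mem_edgeSet ha
  have hen : ∀ a, (en a).card = 2 := fun a =>
    Sym2.card_toFinset_of_not_isDiag _ (hndiag _ a.2.1)
  have hinj : Function.Injective en := fun a b hab => Subtype.ext (mem_pair_of_toFinset hab)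
  have hexy : e.toFinset = {x, y} := by
    rw [hedef]; ext v; simp [Sym2.mem_toFinset]
  have hne : ∀ a, en a ≠ {x, y} := by
    intro a ha
    rw [← hexy] at ha
    exact a.2.2 (mem_pair_of_toFinset ha)
  have hmemen : ∀ (a : ι) w, w ∈ a.1 ↔ w ∈ en a := fun a w => Sym2.mem_toFinset.symm
  have hI := ident_collapse hxy
  rw [← hedef] at hI
  -- sparsity
  have hs : ∀ U : Finset V, 3 ≤ U.card →
      (inside en Finset.univ U).card + (if x ∈ U ∧ y ∈ U then 1 else 0) + 6 ≤ 3 * U.card := by
    intro U hU
    have key : ∀ T : Finset (Sym2 V), (∀ a ∈ T, a ∈ G.edgeSet ∧ ∀ w ∈ a, w ∈ U) →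
        T.card + 6 ≤ 3 * U.card := by
      intro T hTU
      have := hT.1 (U : Set V) (T : Set (Sym2 V)) (fun a ha => (hTU a ha).1)
        (fun a ha w hw => (hTU a ha).2 w hw) (by rw [Set.ncard_coe_finset]; exact hU)
      rwa [Set.ncard_coe_finset, Set.ncard_coe_finset] at this
    have hin : ∀ a ∈ (inside en Finset.univ U).image Subtype.val,
        (a ∈ G.edgeSet ∧ ∀ w ∈ a, w ∈ U) ∧ a ≠ e := by
      intro a ha
      obtain ⟨b, hb, rfl⟩ := Finset.mem_image.mp ha
      rw [mem_inside] at hb
      exact ⟨⟨b.2.1, fun w hw => hb.2 ((hmemen b w).mp hw)⟩, b.2.2⟩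
    have hcard : ((inside en Finset.univ U).image Subtype.val).card =
        (inside en Finset.univ U).card :=
      Finset.card_image_of_injective _ Subtype.val_injective
    split_ifs with hxyU
    · have h1 := key (insert e ((inside en Finset.univ U).image Subtype.val)) (by
        intro a ha
        rcases Finset.mem_insert.mp ha with rfl | ha
        · refine ⟨he, ?_⟩
          intro w hw
          rw [hedef, Sym2.mem_iff] at hw
          rcases hw with rfl | rfl
          · exact hxyU.1
          · exact hxyU.2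
        · exact (hin a ha).1)
      rw [Finset.card_insert_of_notMem (fun h => (hin e h).2 rfl), hcard] at h1
      omega
    · have h1 := key ((inside en Finset.univ U).image Subtype.val) (fun a ha => (hin a ha).1)
      rw [hcard] at h1
      omega
  obtain ⟨d, hd0, hd1, hd2⟩ := exists_three hI hen hinj hne hs
  -- numbers
  have hcardV : Nat.card (Option {v : V // v ∉ e}) + 1 = Nat.card V := by
    rw [Nat.card_eq_fintype_card, Nat.card_eq_fintype_card]
    have h1 := hI.card_image' (U := Finset.univ) (Finset.mem_univ _) (Finset.mem_univ _)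
    rw [Finset.image_univ_of_surjective hI.surj] at h1
    rw [Finset.card_univ, Finset.card_univ] at h1
    exact h1
  have hι : Fintype.card ι + 1 = G.edgeSet.ncard := by
    have h1 : (G.edgeSet \ {e}).ncard = Nat.card ι := by
      rw [← Nat.card_coe_set_eq]
      rfl
    rw [← Nat.card_eq_fintype_card, ← h1]
    exact Set.ncard_sdiff_singleton_add_one he (Set.toFinite _)
  have hE : G.edgeSet.ncard + 6 = 3 * Nat.card V := hT.2
  -- the classes
  obtain ⟨P, hP⟩ : ∃ P : Fin 3 → Finset ι, P = fun k => Finset.univ.filter (fun a => d a = k) :=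
    ⟨_, rfl⟩
  obtain ⟨M, hM⟩ : ∃ M : Fin 3 → Finset ι, M = fun k => Finset.univ.filter (fun a => d a ≠ k) :=
    ⟨_, rfl⟩
  have hmemP : ∀ k a, a ∈ P k ↔ d a = k := by intro k a; rw [hP]; simp
  have hmemM : ∀ k a, a ∈ M k ↔ d a ≠ k := by intro k a; rw [hM]; simp
  have hPM : ∀ k, (P k).card + (M k).card = Fintype.card ι := by
    intro k
    rw [hP, hM, ← Finset.card_univ]
    exact Finset.card_filter_add_card_filter_not (s := Finset.univ) (fun a => d a = k)
  have hP3 : (P 0).card + (P 1).card + (P 2).card = Fintype.card ι := by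
    have h1 : M 0 = P 1 ∪ P 2 := by
      ext a
      rw [Finset.mem_union, hmemM, hmemP, hmemP]
      generalize d a = k
      revert k
      decide
    have h2 : Disjoint (P 1) (P 2) := by
      rw [Finset.disjoint_left]
      intro a ha ha'
      rw [hmemP] at ha ha'
      rw [ha] at ha'
      exact absurd ha' (by decide)
    have h3 := hPM 0
    rw [h1, Finset.card_union_of_disjoint h2] at h3
    omega
  have hd0' : rk (withEdge x y en) (insertNone (M 0)) = (M 0).card + 1 := by rw [hM]; exact hd0
  have hd1' : rk (fun a => (en a).image (collapse e)) (M 1) = (M 1).card := by rw [hM]; exact hd1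
  have hd2' : rk (fun a => (en a).image (collapse e)) (M 2) = (M 2).card := by rw [hM]; exact hd2
  have hc0 : ∀ o, (withEdge x y en o).card = 2 := by
    intro o
    cases o with
    | none => exact Finset.card_pair hxy
    | some a => exact hen a
  have hc1 : ∀ a, ((en a).image (collapse e)).card = 2 := by
    intro a
    rw [← hen a]
    apply hI.card_image
    rintro ⟨hx, hy⟩
    apply hne a
    symm
    apply Finset.eq_of_subset_of_card_le
    · intro v hv
      rcases Finset.mem_insert.mp hv with rfl | hv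
      · exact hx
      · rw [Finset.mem_singleton.mp hv]; exact hy
    · rw [hen a, Finset.card_pair hxy]
  have hV2 : 2 ≤ Nat.card V := by
    have h1 := Finset.card_le_univ ({x, y} : Finset V)
    rw [Finset.card_pair hxy] at h1
    rw [Nat.card_eq_fintype_card]; exact h1
  have hb0 : (M 0).card + 4 ≤ 2 * Nat.card V := by
    have h1 := sparse_of_rk hc0 (I := insertNone (M 0)) (by
      rw [hd0', Finset.card_insertNone]) Finset.univ (by
        rw [Finset.card_univ, ← Nat.card_eq_fintype_card]; exact hV2)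
    rw [Finset.filter_true_of_mem (fun _ _ => Finset.subset_univ _), Finset.card_insertNone,
      Finset.card_univ, ← Nat.card_eq_fintype_card] at h1
    omega
  have hV3 : 3 ≤ Nat.card V := by omega
  have hb : ∀ k, rk (fun a => (en a).image (collapse e)) (M k) = (M k).card →
      (M k).card + 5 ≤ 2 * Nat.card V := by
    intro k hk
    have h1 := sparse_of_rk hc1 (I := M k) hk Finset.univ (by
        rw [Finset.card_univ, ← Nat.card_eq_fintype_card]; omega)
    rw [Finset.filter_true_of_mem (fun _ _ => Finset.subset_univ _),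
      Finset.card_univ, ← Nat.card_eq_fintype_card] at h1
    omega
  have hb1 := hb 1 hd1'
  have hb2 := hb 2 hd2'
  have hPM0 := hPM 0
  have hPM1 := hPM 1
  have hPM2 := hPM 2
  -- images
  have hncard : ∀ k, (Subtype.val '' (P k : Set ι)).ncard = (P k).card := by
    intro k
    rw [Set.ncard_image_of_injective _ Subtype.val_injective, Set.ncard_coe_finset]
  have hnotmem : ∀ k, e ∉ Subtype.val '' (P k : Set ι) := by
    rintro k ⟨a, _, ha⟩
    exact a.2.2 ha
  have hdisj : ∀ j k, j ≠ k →
      Disjoint (Subtype.val '' (P j : Set ι)) (Subtype.val '' (P k : Set ι)) := by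
    intro j k hjk
    rw [Set.disjoint_left]
    rintro _ ⟨a, ha, rfl⟩ ⟨b, hb, hab⟩
    have hab' := Subtype.val_injective hab
    subst hab'
    rw [Finset.mem_coe, hmemP] at ha hb
    exact hjk (ha.symm.trans hb)
  refine ⟨insert e (Subtype.val '' (P 2 : Set ι)), Subtype.val '' (P 1 : Set ι),
    Subtype.val '' (P 0 : Set ι), ⟨?_, ?_, ?_, ?_⟩, ⟨?_, ?_, ?_⟩, Set.mem_insert _ _, ?_, ?_, ?_⟩
  · ext a
    constructor
    · rintro (((h | ⟨b, _, rfl⟩) | ⟨b, _, rfl⟩) | ⟨b, _, rfl⟩)
      · rw [h]; exact he
      · exact b.2.1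
      · exact b.2.1
      · exact b.2.1
    · intro ha
      by_cases hae : a = e
      · exact Or.inl (Or.inl (Or.inl hae))
      · have hk : d ⟨a, ha, hae⟩ = 2 ∨ d ⟨a, ha, hae⟩ = 1 ∨ d ⟨a, ha, hae⟩ = 0 := by
          generalize d ⟨a, ha, hae⟩ = k
          revert k
          decide
        rcases hk with hk | hk | hk
        · exact Or.inl (Or.inl (Or.inr ⟨⟨a, ha, hae⟩, (hmemP _ _).mpr hk, rfl⟩))
        · exact Or.inl (Or.inr ⟨⟨a, ha, hae⟩, (hmemP _ _).mpr hk, rfl⟩)
        · exact Or.inr ⟨⟨a, ha, hae⟩, (hmemP _ _).mpr hk, rfl⟩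
  · rw [Set.disjoint_insert_left]
    exact ⟨hnotmem 1, hdisj 2 1 (by decide)⟩
  · rw [Set.disjoint_insert_left]
    exact ⟨hnotmem 0, hdisj 2 0 (by decide)⟩
  · exact hdisj 1 0 (by decide)
  · rw [Set.ncard_insert_of_notMem (hnotmem 2) (Set.toFinite _), hncard]
    omega
  · rw [hncard]
    omega
  · rw [hncard]
    omega
  · refine isTight_of_rk (κ := Option ι) (f := fun o => o.elim e Subtype.val) hc0
      (I := insertNone (M 0)) ?_ ?_ ?_ (by rw [hd0', Finset.card_insertNone]) ?_
    · intro o _ o' _ hoo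
      cases o with
      | none =>
        cases o' with
        | none => rfl
        | some b => exact absurd hoo.symm b.2.2
      | some a =>
        cases o' with
        | none => exact absurd hoo a.2.2
        | some b =>
          have : a = b := Subtype.val_injective hoo
          rw [this]
    · ext a
      constructor
      · rintro ⟨o, ho, rfl⟩
        cases o with
        | none => exact Or.inl (Or.inl rfl)
        | some b =>
          have hb : b ∈ M 0 := by simpa using ho
          rw [hmemM] at hb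
          have hk : d b = 2 ∨ d b = 1 := by
            revert hb
            generalize d b = k
            revert k
            decide
          rcases hk with hk | hk
          · exact Or.inl (Or.inr ⟨b, (hmemP _ _).mpr hk, rfl⟩)
          · exact Or.inr ⟨b, (hmemP _ _).mpr hk, rfl⟩
      · rintro ((h | ⟨b, hb, rfl⟩) | ⟨b, hb, rfl⟩)
        · exact ⟨none, by simp, h.symm⟩
        · refine ⟨some b, ?_, rfl⟩
          rw [Finset.mem_coe, hmemP] at hb
          have : b ∈ M 0 := by rw [hmemM, hb]; decide
          simpa using this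
        · refine ⟨some b, ?_, rfl⟩
          rw [Finset.mem_coe, hmemP] at hb
          have : b ∈ M 0 := by rw [hmemM, hb]; decide
          simpa using this
    · intro o _ w
      cases o with
      | none =>
        show w ∈ e ↔ w ∈ ({x, y} : Finset V)
        rw [← hexy, Sym2.mem_toFinset]
      | some a => exact hmemen a w
    · rw [Finset.card_insertNone]
      omega
  · refine isTight_of_rk (κ := ι) (f := Subtype.val) hc1
      (I := M 1) Subtype.val_injective.injOn ?_ ?_ hd1' (by omega)
    · ext a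
      constructor
      · rintro ⟨b, hb, rfl⟩
        refine ⟨?_, fun h => b.2.2 h⟩
        rw [Finset.mem_coe, hmemM] at hb
        have hk : d b = 2 ∨ d b = 0 := by
          revert hb
          generalize d b = k
          revert k
          decide
        rcases hk with hk | hk
        · exact Or.inl (Or.inr ⟨b, (hmemP _ _).mpr hk, rfl⟩)
        · exact Or.inr ⟨b, (hmemP _ _).mpr hk, rfl⟩
      · rintro ⟨(h | ⟨b, hb, rfl⟩) | ⟨b, hb, rfl⟩, hne'⟩
        · exact absurd h hne'
        · refine ⟨b, ?_, rfl⟩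
          rw [Finset.mem_coe, hmemP] at hb
          rw [Finset.mem_coe, hmemM, hb]; decide
        · refine ⟨b, ?_, rfl⟩
          rw [Finset.mem_coe, hmemP] at hb
          rw [Finset.mem_coe, hmemM, hb]; decide
    · intro a _ w
      rw [Sym2.mem_map, Finset.mem_image]
      exact exists_congr (fun v => and_congr (hmemen a v) Iff.rfl)
  · refine isTight_of_rk (κ := ι) (f := Subtype.val) hc1
      (I := M 2) Subtype.val_injective.injOn ?_ ?_ hd2' (by omega)
    · ext a
      constructor
      · rintro ⟨b, hb, rfl⟩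
        refine ⟨?_, fun h => b.2.2 h⟩
        rw [Finset.mem_coe, hmemM] at hb
        have hk : d b = 1 ∨ d b = 0 := by
          revert hb
          generalize d b = k
          revert k
          decide
        rcases hk with hk | hk
        · exact Or.inl (Or.inl ⟨b, (hmemP _ _).mpr hk, rfl⟩)
        · exact Or.inl (Or.inr ⟨b, (hmemP _ _).mpr hk, rfl⟩)
      · rintro ⟨(⟨b, hb, rfl⟩ | ⟨b, hb, rfl⟩) | h, hne'⟩
        · refine ⟨b, ?_, rfl⟩
          rw [Finset.mem_coe, hmemP] at hb
          rw [Finset.mem_coe, hmemM, hb]; decide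
        · refine ⟨b, ?_, rfl⟩
          rw [Finset.mem_coe, hmemP] at hb
          rw [Finset.mem_coe, hmemM, hb]; decide
        · exact absurd h hne'
    · intro a _ w
      rw [Sym2.mem_map, Finset.mem_image]
      exact exists_congr (fun v => and_congr (hmemen a v) Iff.rfl)

end Pool.Agent.Lib.MP_eace5d_co
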