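import Pool.Agent.Lib.MP_eace5d_co.Union

/-!
# The rank function of the (2,3)-count matroid, by covers

`en a` is the two-element set of the endpoints of the edge `a`. The rank of a finite set `A` of
edges is the least value of `∑ (2 |W| - 3)` over all families of vertex sets `W` with at least two
elements such that every edge of `A` lies inside some `W`.
-/

namespace Pool.Agent.Lib.MP_eace5d_co

open Finset

variable {ι V : Type*} [DecidableEq ι] [DecidableEq V]

/-- the value of one vertex set -/
def fc (W : Finset V) : ℕ := 2 * W.card - 3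

/-- the cost of a family -/
def cost (F : Finset (Finset V)) : ℕ := ∑ W ∈ F, fc W

/-- `F` is a cover of `A` -/
def Cov (en : ι → Finset V) (A : Finset ι) (F : Finset (Finset V)) : Prop :=
  (∀ W ∈ F, 2 ≤ W.card) ∧ ∀ a ∈ A, ∃ W ∈ F, en a ⊆ W

/-- the rank function -/
noncomputable def rk (en : ι → Finset V) (A : Finset ι) : ℕ :=
  sInf {n | ∃ F, Cov en A F ∧ cost F = n}

lemma fc_add {W : Finset V} (h : 2 ≤ W.card) : fc W + 3 = 2 * W.card := by
  unfold fc; omega

lemma cost_insert_le (W : Finset V) (F : Finset (Finset V)) : cost (insert W F) ≤ fc W + cost F := by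
  unfold cost
  by_cases h : W ∈ F
  · rw [Finset.insert_eq_of_mem h]; omega
  · rw [Finset.sum_insert h]

lemma cost_union_le (F G : Finset (Finset V)) : cost (F ∪ G) ≤ cost F + cost G := by
  unfold cost
  have := Finset.sum_union_inter (s₁ := F) (s₂ := G) (f := (fc : Finset V → ℕ))
  omega

lemma cost_image_le {β : Type*} [DecidableEq β] (G : Finset β) (φ : β → Finset V) :
    cost (G.image φ) ≤ ∑ g ∈ G, fc (φ g) := by
  unfold cost
  exact Finset.sum_image_le_of_nonneg (fun _ _ => Nat.zero_le _)

lemma cost_erase {C : Finset V} {F : Finset (Finset V)} (h : C ∈ F) :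
    fc C + cost (F.erase C) = cost F := Finset.add_sum_erase F fc h

lemma cost_filter (F : Finset (Finset V)) (p : Finset V → Prop) [DecidablePred p] :
    cost (F.filter p) + cost (F.filter (fun W => ¬ p W)) = cost F :=
  Finset.sum_filter_add_sum_filter_not F p fc

variable {en : ι → Finset V}

lemma Cov.mono {A B : Finset ι} {F : Finset (Finset V)} (h : Cov en B F) (hAB : A ⊆ B) :
    Cov en A F := ⟨h.1, fun a ha => h.2 a (hAB ha)⟩

lemma exists_cov (hen : ∀ a, (en a).card = 2) (A : Finset ι) : ∃ F, Cov en A F := by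
  refine ⟨A.image en, ?_, ?_⟩
  · intro W hW
    obtain ⟨a, _, rfl⟩ := Finset.mem_image.mp hW
    rw [hen a]
  · intro a ha
    exact ⟨en a, Finset.mem_image_of_mem en ha, Finset.Subset.refl _⟩

lemma exists_opt (hen : ∀ a, (en a).card = 2) (A : Finset ι) : ∃ F, Cov en A F ∧ cost F = rk en A := by
  obtain ⟨F, hF⟩ := exists_cov hen A
  exact Nat.sInf_mem (s := {n | ∃ F, Cov en A F ∧ cost F = n}) ⟨cost F, F, hF, rfl⟩

lemma rk_le {A : Finset ι} {F : Finset (Finset V)} (h : Cov en A F) : rk en A ≤ cost F :=
  Nat.sInf_le (s := {n | ∃ F, Cov en A F ∧ cost F = n}) ⟨F, h, rfl⟩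

/-- the cover used for merging: everything meeting `D` in at least two points is merged with `D` -/
def meets (F : Finset (Finset V)) (D : Finset V) : Finset (Finset V) :=
  F.filter (fun Q => 2 ≤ (Q ∩ D).card)

/-- the merged set -/
def hull (G : Finset (Finset V)) (D : Finset V) : Finset V := D ∪ G.biUnion id

lemma hull_card (G : Finset (Finset V)) (D : Finset V) :
    (hull G D).card + ∑ Q ∈ G, (Q ∩ D).card ≤ D.card + ∑ Q ∈ G, Q.card := by
  induction G using Finset.induction_on with
  | empty => simp [hull]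
  | insert Q G hQ ih =>
    rw [Finset.sum_insert hQ, Finset.sum_insert hQ]
    have h1 : hull (insert Q G) D = Q ∪ hull G D := by
      unfold hull
      rw [Finset.biUnion_insert]
      simp only [id]
      rw [Finset.union_left_comm]
    have h2 : (Q ∪ hull G D).card + (Q ∩ hull G D).card = Q.card + (hull G D).card :=
      Finset.card_union_add_card_inter _ _
    have h3 : (Q ∩ D).card ≤ (Q ∩ hull G D).card :=
      Finset.card_le_card (Finset.inter_subset_inter_left (by unfold hull; exact Finset.subset_union_left))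
    rw [h1]
    omega

/-- Merging does not increase the cost when `D` is rigid relative to the family. -/
lemma hull_cost {F : Finset (Finset V)} {D : Finset V} (hF : ∀ W ∈ F, 2 ≤ W.card) (hD : 2 ≤ D.card)
    (hrig : fc D ≤ ∑ Q ∈ meets F D, fc (Q ∩ D)) :
    fc (hull (meets F D) D) ≤ cost (meets F D) := by
  have h1 := hull_card (meets F D) D
  have h2 : ∑ Q ∈ meets F D, (fc (Q ∩ D) + 3) = ∑ Q ∈ meets F D, 2 * (Q ∩ D).card := by
    refine Finset.sum_congr rfl (fun Q hQ => ?_)
    exact fc_add (Finset.mem_filter.mp hQ).2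
  have h3 : ∑ Q ∈ meets F D, (fc Q + 3) = ∑ Q ∈ meets F D, 2 * Q.card := by
    refine Finset.sum_congr rfl (fun Q hQ => ?_)
    exact fc_add (hF Q (Finset.mem_filter.mp hQ).1)
  rw [Finset.sum_add_distrib, ← Finset.mul_sum] at h2 h3
  have h4 : 2 ≤ (hull (meets F D) D).card :=
    hD.trans (Finset.card_le_card (by unfold hull; exact Finset.subset_union_left))
  have h5 := fc_add h4
  have h6 := fc_add hD
  unfold cost
  omega

/-- A member of an optimal cover is rigid: any cover of the edges inside costs as much. -/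
lemma opt_local {A : Finset ι} {F : Finset (Finset V)} (hF : Cov en A F) (hopt : cost F = rk en A)
    {C : Finset V} (hC : C ∈ F) {G : Finset (Finset V)} (hG : ∀ W ∈ G, 2 ≤ W.card)
    (hcov : ∀ a ∈ A, en a ⊆ C → ∃ W ∈ G, en a ⊆ W) : fc C ≤ cost G := by
  have h1 : Cov en A (F.erase C ∪ G) := by
    refine ⟨?_, ?_⟩
    · intro W hW
      rcases Finset.mem_union.mp hW with h | h
      · exact hF.1 W (Finset.mem_of_mem_erase h)
      · exact hG W h
    · intro a ha
      obtain ⟨W, hW, haW⟩ := hF.2 a ha
      by_cases hWC : W = C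
      · subst hWC
        obtain ⟨W', hW', h'⟩ := hcov a ha haW
        exact ⟨W', Finset.mem_union_right _ hW', h'⟩
      · exact ⟨W, Finset.mem_union_left _ (Finset.mem_erase.mpr ⟨hWC, hW⟩), haW⟩
  have h2 := rk_le h1
  have h3 := cost_union_le (F.erase C) G
  have h4 := cost_erase hC
  omega

/-- merging several members of an optimal cover -/
lemma opt_merge {A : Finset ι} {F : Finset (Finset V)} (hF : Cov en A F) (hopt : cost F = rk en A)
    {T : Finset (Finset V)} (hT : T ⊆ F) (hne : T.Nonempty) :
    cost T ≤ fc (T.biUnion id) := by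
  have hT2 : 2 ≤ (T.biUnion id).card := by
    obtain ⟨W, hW⟩ := hne
    exact (hF.1 W (hT hW)).trans (Finset.card_le_card (Finset.subset_biUnion_of_mem id hW))
  have h1 : Cov en A (insert (T.biUnion id) (F \ T)) := by
    refine ⟨?_, ?_⟩
    · intro W hW
      rcases Finset.mem_insert.mp hW with rfl | h
      · exact hT2
      · exact hF.1 W (Finset.sdiff_subset h)
    · intro a ha
      obtain ⟨W, hW, haW⟩ := hF.2 a ha
      by_cases hWT : W ∈ T
      · exact ⟨_, Finset.mem_insert_self _ _, haW.trans (Finset.subset_biUnion_of_mem id hWT)⟩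
      · exact ⟨W, Finset.mem_insert_of_mem (Finset.mem_sdiff.mpr ⟨hW, hWT⟩), haW⟩
  have h2 := rk_le h1
  have h3 := cost_insert_le (T.biUnion id) (F \ T)
  have h4 : cost (F \ T) + cost T = cost F := Finset.sum_sdiff hT
  omega

/-- The cover rank function is a matroid rank function. -/
theorem isRank_rk (hen : ∀ a, (en a).card = 2) : IsRank (rk en) := by
  refine ⟨?_, ?_, ?_, ?_⟩
  · have : Cov en ∅ (∅ : Finset (Finset V)) := ⟨by simp, by simp⟩
    have h := rk_le this
    simpa [cost] using h
  · intro A x
    obtain ⟨F, hF, hc⟩ := exists_opt hen (insert x A)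
    rw [← hc]
    exact rk_le (hF.mono (Finset.subset_insert _ _))
  · intro A x
    obtain ⟨F, hF, hc⟩ := exists_opt hen A
    have h1 : Cov en (insert x A) (insert (en x) F) := by
      refine ⟨?_, ?_⟩
      · intro W hW
        rcases Finset.mem_insert.mp hW with rfl | h
        · rw [hen x]
        · exact hF.1 W h
      · intro a ha
        rcases Finset.mem_insert.mp ha with rfl | h
        · exact ⟨en a, Finset.mem_insert_self _ _, Finset.Subset.refl _⟩
        · obtain ⟨W, hW, h'⟩ := hF.2 a h
          exact ⟨W, Finset.mem_insert_of_mem hW, h'⟩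
    have h2 := rk_le h1
    have h3 := cost_insert_le (en x) F
    have h4 : fc (en x) = 1 := by unfold fc; rw [hen x]
    omega
  · intro A B x hAB he
    obtain ⟨P, hP, hPc⟩ := exists_opt hen (insert x A)
    obtain ⟨Q, hQ, hQc⟩ := exists_opt hen B
    obtain ⟨C, hC, hxC⟩ := hP.2 x (Finset.mem_insert_self _ _)
    have hPA : Cov en A P := hP.mono (Finset.subset_insert _ _)
    have hPopt : cost P = rk en A := by rw [hPc, he]
    have hC2 : 2 ≤ C.card := hP.1 C hC
    have hrig : fc C ≤ ∑ W ∈ meets Q C, fc (W ∩ C) := by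
      refine (opt_local hPA hPopt hC (G := (meets Q C).image (fun W => W ∩ C)) ?_ ?_).trans
        (cost_image_le _ _)
      · intro W hW
        obtain ⟨W', hW', rfl⟩ := Finset.mem_image.mp hW
        exact (Finset.mem_filter.mp hW').2
      · intro a ha haC
        obtain ⟨W, hW, haW⟩ := hQ.2 a (hAB ha)
        have hsub : en a ⊆ W ∩ C := Finset.subset_inter haW haC
        have hcard : 2 ≤ (W ∩ C).card := by
          rw [← hen a]; exact Finset.card_le_card hsub
        exact ⟨W ∩ C, Finset.mem_image_of_mem _ (Finset.mem_filter.mpr ⟨hW, hcard⟩), hsub⟩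
    have hcost := hull_cost hQ.1 hC2 hrig
    have hnew : Cov en (insert x B)
        (insert (hull (meets Q C) C) (Q.filter (fun W => ¬ 2 ≤ (W ∩ C).card))) := by
      refine ⟨?_, ?_⟩
      · intro W hW
        rcases Finset.mem_insert.mp hW with rfl | h
        · exact hC2.trans (Finset.card_le_card (by unfold hull; exact Finset.subset_union_left))
        · exact hQ.1 W (Finset.mem_filter.mp h).1
      · intro a ha
        rcases Finset.mem_insert.mp ha with rfl | h
        · refine ⟨_, Finset.mem_insert_self _ _, hxC.trans ?_⟩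
          unfold hull; exact Finset.subset_union_left
        · obtain ⟨W, hW, haW⟩ := hQ.2 a h
          by_cases h2 : 2 ≤ (W ∩ C).card
          · refine ⟨_, Finset.mem_insert_self _ _, haW.trans ?_⟩
            unfold hull
            refine Finset.Subset.trans ?_ Finset.subset_union_right
            exact Finset.subset_biUnion_of_mem id (Finset.mem_filter.mpr ⟨hW, h2⟩)
          · exact ⟨W, Finset.mem_insert_of_mem (Finset.mem_filter.mpr ⟨hW, h2⟩), haW⟩
    have h1 := rk_le hnew
    have h2 := cost_insert_le (hull (meets Q C) C) (Q.filter (fun W => ¬ 2 ≤ (W ∩ C).card))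
    have h3 := cost_filter Q (fun W => 2 ≤ (W ∩ C).card)
    have h4 : rk en B ≤ rk en (insert x B) := by
      obtain ⟨F, hF, hc⟩ := exists_opt hen (insert x B)
      rw [← hc]
      exact rk_le (hF.mono (Finset.subset_insert _ _))
    unfold meets at hcost h2
    unfold meets at h1
    omega

/-- Independent sets are sparse. -/
lemma sparse_of_rk {I : Finset ι} (hen : ∀ a, (en a).card = 2) (h : rk en I = I.card)
    (U : Finset V) (hU : 2 ≤ U.card) : (I.filter (fun a => en a ⊆ U)).card + 3 ≤ 2 * U.card := by
  have h1 : Cov en I (insert U ((I.filter (fun a => ¬ en a ⊆ U)).image en)) := by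
    refine ⟨?_, ?_⟩
    · intro W hW
      rcases Finset.mem_insert.mp hW with rfl | h
      · exact hU
      · obtain ⟨a, _, rfl⟩ := Finset.mem_image.mp h
        rw [hen a]
    · intro a ha
      by_cases h' : en a ⊆ U
      · exact ⟨U, Finset.mem_insert_self _ _, h'⟩
      · exact ⟨en a, Finset.mem_insert_of_mem (Finset.mem_image_of_mem en
          (Finset.mem_filter.mpr ⟨ha, h'⟩)), Finset.Subset.refl _⟩
  have h2 := rk_le h1
  have h3 := cost_insert_le U ((I.filter (fun a => ¬ en a ⊆ U)).image en)
  have h4 := cost_image_le (I.filter (fun a => ¬ en a ⊆ U)) en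
  have h5 : ∑ a ∈ I.filter (fun a => ¬ en a ⊆ U), fc (en a) =
      (I.filter (fun a => ¬ en a ⊆ U)).card := by
    rw [Finset.card_eq_sum_ones]
    refine Finset.sum_congr rfl (fun a _ => ?_)
    unfold fc; rw [hen a]
  have h6 := Finset.card_filter_add_card_filter_not (s := I) (fun a => en a ⊆ U)
  have h7 := fc_add hU
  omega

/-- There is a coarsest optimal cover. -/
lemma exists_coarse (hen : ∀ a, (en a).card = 2) (A : Finset ι) :
    ∃ F, Cov en A F ∧ cost F = rk en A ∧ ∀ G, Cov en A G → cost G ≤ rk en A → F.card ≤ G.card := by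
  classical
  obtain ⟨F₀, hF₀, hc₀⟩ := exists_opt hen A
  set S : Set ℕ := {n | ∃ F, Cov en A F ∧ cost F = rk en A ∧ F.card = n} with hS
  have hSne : S.Nonempty := ⟨F₀.card, F₀, hF₀, hc₀, rfl⟩
  obtain ⟨F, hF, hc, hn⟩ := Nat.sInf_mem hSne
  refine ⟨F, hF, hc, ?_⟩
  intro G hG hGc
  rw [hn]
  exact Nat.sInf_le ⟨G, hG, le_antisymm hGc (rk_le hG), rfl⟩

/-- A rigid set lies in one member of a coarsest optimal cover. -/
lemma coarse_contains {A : Finset ι} {F : Finset (Finset V)}
    (hF : Cov en A F) (hopt : cost F = rk en A)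
    (hmin : ∀ G, Cov en A G → cost G ≤ rk en A → F.card ≤ G.card)
    {D : Finset V} (hD : 2 ≤ D.card) (hrig : fc D ≤ ∑ Q ∈ meets F D, fc (Q ∩ D)) :
    ∃ C ∈ F, D ⊆ C := by
  have hcost := hull_cost hF.1 hD hrig
  have hnew : Cov en A
      (insert (hull (meets F D) D) (F.filter (fun W => ¬ 2 ≤ (W ∩ D).card))) := by
    refine ⟨?_, ?_⟩
    · intro W hW
      rcases Finset.mem_insert.mp hW with rfl | h
      · exact hD.trans (Finset.card_le_card (by unfold hull; exact Finset.subset_union_left))
      · exact hF.1 W (Finset.mem_filter.mp h).1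
    · intro a ha
      obtain ⟨W, hW, haW⟩ := hF.2 a ha
      by_cases h2 : 2 ≤ (W ∩ D).card
      · refine ⟨_, Finset.mem_insert_self _ _, haW.trans ?_⟩
        unfold hull
        refine Finset.Subset.trans ?_ Finset.subset_union_right
        exact Finset.subset_biUnion_of_mem id (Finset.mem_filter.mpr ⟨hW, h2⟩)
      · exact ⟨W, Finset.mem_insert_of_mem (Finset.mem_filter.mpr ⟨hW, h2⟩), haW⟩
  have h2 := cost_insert_le (hull (meets F D) D) (F.filter (fun W => ¬ 2 ≤ (W ∩ D).card))
  have h3 := cost_filter F (fun W => 2 ≤ (W ∩ D).card)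
  have hm : F.filter (fun W => 2 ≤ (W ∩ D).card) = meets F D := rfl
  rw [hm] at h3
  have h4 := hmin _ hnew (by omega)
  have h5 := Finset.card_insert_le (hull (meets F D) D)
    (F.filter (fun W => ¬ 2 ≤ (W ∩ D).card))
  have h6 := Finset.card_filter_add_card_filter_not (s := F) (fun W => 2 ≤ (W ∩ D).card)
  rw [hm] at h6
  have h7 : (meets F D).card ≤ 1 := by omega
  have h8 : fc D ≠ 0 := by unfold fc; omega
  rcases Finset.card_le_one_iff_subset_singleton.mp h7 with ⟨C, hC⟩
  have h9 : (meets F D).Nonempty := by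
    by_contra hne
    rw [Finset.not_nonempty_iff_eq_empty] at hne
    rw [hne] at hrig
    simp at hrig
    exact h8 hrig
  obtain ⟨C', hC'⟩ := h9
  have h10 : meets F D = {C'} := by
    have : C' = C := Finset.mem_singleton.mp (hC hC')
    subst this
    exact Finset.Subset.antisymm hC (Finset.singleton_subset_iff.mpr hC')
  rw [h10, Finset.sum_singleton] at hrig
  refine ⟨C', (Finset.mem_filter.mp hC').1, ?_⟩
  have h11 : 2 ≤ (C' ∩ D).card := (Finset.mem_filter.mp hC').2
  have h12 := fc_add h11
  have h13 := fc_add hD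
  have h14 : C' ∩ D = D := Finset.eq_of_subset_of_card_le Finset.inter_subset_right (by omega)
  rw [← h14]
  exact Finset.inter_subset_left

/-- Two members of an optimal cover share at most one point. -/
lemma opt_pair {A : Finset ι} {F : Finset (Finset V)} (hF : Cov en A F) (hopt : cost F = rk en A)
    {C D : Finset V} (hC : C ∈ F) (hD : D ∈ F) (hne : C ≠ D) : (C ∩ D).card ≤ 1 := by
  have h1 := opt_merge hF hopt (T := {C, D}) (by
    intro W hW
    rcases Finset.mem_insert.mp hW with rfl | h
    · exact hC
    · rw [Finset.mem_singleton.mp h]; exact hD) ⟨C, by simp⟩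
  have h2 : cost {C, D} = fc C + fc D := Finset.sum_pair hne
  have h3 : ({C, D} : Finset (Finset V)).biUnion id = C ∪ D := by
    rw [Finset.biUnion_insert, Finset.singleton_biUnion]; rfl
  rw [h2, h3] at h1
  have h4 := Finset.card_union_add_card_inter C D
  have h5 := fc_add (hF.1 C hC)
  have h6 := fc_add (hF.1 D hD)
  have h7 : 2 ≤ (C ∪ D).card := (hF.1 C hC).trans (Finset.card_le_card Finset.subset_union_left)
  have h8 := fc_add h7
  omega

end Pool.Agent.Lib.MP_eace5d_co
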